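import Mathlib

/-! # [H8 UC NUM] numbers for UC+ -/

namespace Pool.Agent.H8.UC

/-- `a ≤ y`, `b ≤ y`, exponents with sum `1` -/
theorem young {a b y p q : ℝ} (ha : 0 ≤ a) (hb : 0 ≤ b) (hay : a ≤ y) (hby : b ≤ y) (hp : 0 ≤ p) (hq : 0 ≤ q)
    (hy : 0 < y) (h : p + q = 1) : a ^ p * b ^ q ≤ y := by
  calc a ^ p * b ^ q ≤ y ^ p * y ^ q := mul_le_mul (Real.rpow_le_rpow ha hay hp) (Real.rpow_le_rpow hb hby hq)
        (Real.rpow_nonneg hb _) (Real.rpow_nonneg hy.le _)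
    _ = y := by rw [← Real.rpow_add hy, h, Real.rpow_one]

/-- the number of points, `S' = max S ⌈H^(1/(n-1))⌉` -/
theorem num (n : ℕ) (hn : 4 ≤ n) (ε : ℝ) (hε : 0 < ε) : ∃ c : ℝ, 0 ≤ c ∧ ∀ S H : ℕ, 1 ≤ S → 1 ≤ H →
    ∃ S' : ℕ, S ≤ S' ∧ H ≤ S' ^ (n - 1) ∧
      (S' : ℝ) ≤ c * (S + (H : ℝ) ^ (3 / (n : ℝ) + ε)) ∧ 1 ≤ (S : ℝ) + (H : ℝ) ^ (3 / (n : ℝ) + ε) ∧
      (H : ℝ) ^ (3 / (n : ℝ)) ≤ S + (H : ℝ) ^ (3 / (n : ℝ) + ε) ∧
      ((S' : ℝ) ^ (2 / 3 : ℝ) * (1 + Real.log S') + H / (S' : ℝ) ^ (n - 2)) * (H : ℝ) ^ (1 / (n : ℝ)) ≤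
        c * (S + (H : ℝ) ^ (3 / (n : ℝ) + ε)) := by
  have hn0 : (0 : ℝ) < n := by
    have : 0 < n := by omega
    exact_mod_cast this
  have hn4 : (4 : ℝ) ≤ n := by exact_mod_cast hn
  obtain ⟨δ, hδ⟩ : ∃ δ : ℝ, δ = 1 / 3 - 1 / (3 + n * ε) := ⟨_, rfl⟩
  have hne : 0 < n * ε := by positivity
  have hδ0 : 0 < δ := by
    rw [hδ, sub_pos]
    apply one_div_lt_one_div_of_lt <;> linarith
  refine ⟨3 * (1 + 1 / δ) + 1 + 3, by positivity, ?_⟩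
  intro S H hS hH
  have hS1 : (1 : ℝ) ≤ S := by exact_mod_cast hS
  have hH1 : (1 : ℝ) ≤ H := by exact_mod_cast hH
  have hH0 : (0 : ℝ) < H := by linarith
  obtain ⟨R, hR⟩ : ∃ R : ℕ, R = ⌈(H : ℝ) ^ (1 / ((n : ℝ) - 1))⌉₊ := ⟨_, rfl⟩
  have hRge : (H : ℝ) ^ (1 / ((n : ℝ) - 1)) ≤ R := by
    rw [hR]
    exact Nat.le_ceil _
  have hRle : (R : ℝ) ≤ (H : ℝ) ^ (1 / ((n : ℝ) - 1)) + 1 := by
    rw [hR]
    exact (Nat.ceil_lt_add_one (by positivity)).le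
  obtain ⟨S', hS'⟩ : ∃ S' : ℕ, S' = max S R := ⟨_, rfl⟩
  have hSS' : S ≤ S' := by rw [hS']; exact le_max_left _ _
  have hRS' : R ≤ S' := by rw [hS']; exact le_max_right _ _
  have hRS'r : (R : ℝ) ≤ S' := by exact_mod_cast hRS'
  have hS'1 : (1 : ℝ) ≤ S' := by exact_mod_cast hS.trans hSS'
  have hS'0 : (0 : ℝ) < S' := by linarith
  obtain ⟨Y, hY⟩ : ∃ Y : ℝ, Y = (H : ℝ) ^ (3 / (n : ℝ) + ε) := ⟨_, rfl⟩
  have hY1 : 1 ≤ Y := by
    rw [hY]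
    exact Real.one_le_rpow hH1 (by positivity)
  rw [← hY]
  have hSR : (S' : ℝ) ≤ S + R := by
    rw [hS', Nat.cast_max]
    refine max_le ?_ ?_
    · linarith [(Nat.cast_nonneg R : (0 : ℝ) ≤ R)]
    · linarith
  have h1n : (H : ℝ) ^ (1 / ((n : ℝ) - 1)) ≤ Y := by
    rw [hY]
    refine Real.rpow_le_rpow_of_exponent_le hH1 ?_
    have h1 : 1 / ((n : ℝ) - 1) ≤ 3 / n := by
      rw [div_le_div_iff₀ (by linarith) hn0]
      linarith
    linarith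
  have hS'Y : (S' : ℝ) ≤ 3 * (S + Y) := by
    have h2 : (S' : ℝ) ≤ S + (Y + 1) := by linarith
    nlinarith
  have hHS : (H : ℝ) ≤ (S' : ℝ) ^ (n - 1) := by
    have h1 : (H : ℝ) ^ (1 / ((n : ℝ) - 1)) ≤ S' := hRge.trans hRS'r
    have h2 : ((H : ℝ) ^ (1 / ((n : ℝ) - 1))) ^ (n - 1) ≤ (S' : ℝ) ^ (n - 1) := pow_le_pow_left₀ (by positivity) h1 _
    have h3 : ((H : ℝ) ^ (1 / ((n : ℝ) - 1))) ^ (n - 1) = H := by
      rw [← Real.rpow_natCast ((H : ℝ) ^ (1 / ((n : ℝ) - 1))) (n - 1), ← Real.rpow_mul hH0.le, Nat.cast_sub (by omega),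
        Nat.cast_one, one_div, inv_mul_cancel₀ (by linarith), Real.rpow_one]
    rwa [h3] at h2
  refine ⟨S', hSS', by exact_mod_cast hHS, ?_, by linarith, ?_, ?_⟩
  · refine hS'Y.trans ?_
    refine mul_le_mul_of_nonneg_right ?_ (by linarith)
    have : 0 < 1 / δ := by positivity
    linarith
  · have h1 : (H : ℝ) ^ (3 / (n : ℝ)) ≤ Y := by
      rw [hY]
      exact Real.rpow_le_rpow_of_exponent_le hH1 (by linarith)
    linarith
  · -- first term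
    have hlog : 1 + Real.log S' ≤ (1 + 1 / δ) * (S' : ℝ) ^ δ := by
      have h1 := Real.log_le_rpow_div hS'0.le hδ0
      have h2 : 1 ≤ (S' : ℝ) ^ δ := Real.one_le_rpow hS'1 hδ0.le
      have h3 : (S' : ℝ) ^ δ / δ = 1 / δ * (S' : ℝ) ^ δ := by ring
      rw [h3] at h1
      nlinarith
    have hlog0 : 0 ≤ 1 + Real.log S' := by
      have := Real.log_nonneg hS'1
      linarith
    have hH1n : (H : ℝ) ^ (1 / (n : ℝ)) = Y ^ (1 / (3 + n * ε)) := by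
      rw [hY, ← Real.rpow_mul hH0.le]
      congr 1
      field_simp
    have h4 : (S' : ℝ) ^ (2 / 3 + δ) * Y ^ (1 / (3 + n * ε)) ≤ 3 * (S + Y) := by
      refine young hS'0.le (by linarith) hS'Y (by linarith) (by linarith) (by positivity) (by linarith) ?_
      rw [hδ]
      ring
    have h5 : (S' : ℝ) ^ (2 / 3 : ℝ) * (1 + Real.log S') * (H : ℝ) ^ (1 / (n : ℝ)) ≤ (1 + 1 / δ) * (3 * (S + Y)) := by
      rw [hH1n]
      calc (S' : ℝ) ^ (2 / 3 : ℝ) * (1 + Real.log S') * Y ^ (1 / (3 + n * ε))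
          ≤ (S' : ℝ) ^ (2 / 3 : ℝ) * ((1 + 1 / δ) * (S' : ℝ) ^ δ) * Y ^ (1 / (3 + n * ε)) := by
            refine mul_le_mul_of_nonneg_right (mul_le_mul_of_nonneg_left hlog (by positivity)) (by positivity)
        _ = (1 + 1 / δ) * ((S' : ℝ) ^ (2 / 3 + δ) * Y ^ (1 / (3 + n * ε))) := by
            rw [Real.rpow_add hS'0]
            ring
        _ ≤ (1 + 1 / δ) * (3 * (S + Y)) := mul_le_mul_of_nonneg_left h4 (by positivity)
    -- second term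
    have h6 : H / (S' : ℝ) ^ (n - 2) * (H : ℝ) ^ (1 / (n : ℝ)) ≤ Y := by
      have h7 : (H : ℝ) ^ (((n : ℝ) - 2) / ((n : ℝ) - 1)) ≤ (S' : ℝ) ^ (n - 2) := by
        have h8 : ((H : ℝ) ^ (1 / ((n : ℝ) - 1))) ^ (n - 2) ≤ (S' : ℝ) ^ (n - 2) :=
          pow_le_pow_left₀ (by positivity) (hRge.trans hRS'r) _
        have h9 : ((H : ℝ) ^ (1 / ((n : ℝ) - 1))) ^ (n - 2) = (H : ℝ) ^ (((n : ℝ) - 2) / ((n : ℝ) - 1)) := by
          rw [← Real.rpow_natCast ((H : ℝ) ^ (1 / ((n : ℝ) - 1))) (n - 2), ← Real.rpow_mul hH0.le, Nat.cast_sub (by omega)]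
          congr 1
          push_cast
          ring
        rwa [h9] at h8
      have h10 : H / (S' : ℝ) ^ (n - 2) ≤ H / (H : ℝ) ^ (((n : ℝ) - 2) / ((n : ℝ) - 1)) :=
        div_le_div_of_nonneg_left hH0.le (by positivity) h7
      calc H / (S' : ℝ) ^ (n - 2) * (H : ℝ) ^ (1 / (n : ℝ))
          ≤ H / (H : ℝ) ^ (((n : ℝ) - 2) / ((n : ℝ) - 1)) * (H : ℝ) ^ (1 / (n : ℝ)) :=
            mul_le_mul_of_nonneg_right h10 (by positivity)
        _ = (H : ℝ) ^ (1 - ((n : ℝ) - 2) / ((n : ℝ) - 1) + 1 / (n : ℝ)) := by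
            rw [Real.rpow_add hH0, Real.rpow_sub hH0, Real.rpow_one]
        _ ≤ Y := by
            rw [hY]
            refine Real.rpow_le_rpow_of_exponent_le hH1 ?_
            have h11 : 1 - ((n : ℝ) - 2) / ((n : ℝ) - 1) = 1 / ((n : ℝ) - 1) := by
              have : (n : ℝ) - 1 ≠ 0 := by linarith
              field_simp
              ring
            have h12 : 1 / ((n : ℝ) - 1) ≤ 2 / n := by
              rw [div_le_div_iff₀ (by linarith) hn0]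
              linarith
            have h13 : (3 : ℝ) / n = 2 / n + 1 / n := by ring
            rw [h11, h13]
            linarith
    have h14 : 0 ≤ 1 / δ := by positivity
    rw [add_mul]
    nlinarith

end Pool.Agent.H8.UC
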