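import Pool.Agent.H8.UC.Asm3
import Pool.Agent.H99.UC.Large

/-! # [H8 UC ASM5] THEOREM UC++ (EveryPencil): every `F` with leading form `f`, no condition on the lower terms; the constants `c` and
the integer solutions of `|F| ≤ H` on smooth curves -/

namespace Pool.Agent.H8.UC

open MvPolynomial Pool.Agent.H8.AA

/-- all `F` at once: the constants `c` and the pairs `(c,P)` -/
theorem count5 (n : ℕ) (hn : 4 ≤ n) (f : MvPolynomial (Fin 2) ℤ) (hf : f.IsHomogeneous n)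
    (hirr : Irreducible (map (Int.castRingHom ℚ) f)) :
    ∃ E B N : ℕ, 2 ≤ B ∧ (∀ m, |f.coeff m| ≤ (B : ℤ)) ∧ ∀ S H : ℕ, 1 ≤ S → H ≤ S ^ (n - 1) →
    ∀ F : MvPolynomial (Fin 2) ℤ, F.totalDegree ≤ n → homogeneousComponent n F = f →
    (∀ m : Fin 2 →₀ ℕ, m.degree < n → |F.coeff m| ≤ (S : ℤ) ^ (n - m.degree)) →
    ∃ T : Finset (ℤ × ℤ), (∀ P ∈ T, |ev n (co (vec n F)) P.1 P.2| ≤ (H : ℤ) ∧ max |P.1| |P.2| ≤ ((B : ℤ) * S ^ n) ^ E) ∧
    {c : ℤ | |c| ≤ (H : ℤ) ∧ ∃ P : Fin 2 → ℤ, eval P (F + C c) = 0}.ncard ≤ N + T.card + (2 * n) ^ 2 ∧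
    {p : ℤ × (Fin 2 → ℤ) | |p.1| ≤ (H : ℤ) ∧ H12.ON.Smooth (F + C p.1) ∧ eval p.2 (F + C p.1) = 0}.Finite ∧
    {p : ℤ × (Fin 2 → ℤ) | |p.1| ≤ (H : ℤ) ∧ H12.ON.Smooth (F + C p.1) ∧ eval p.2 (F + C p.1) = 0}.ncard ≤
      N + T.card := by
  classical
  obtain ⟨E, N, hE⟩ := Pool.Agent.H99.UC.large2 n hn f hf hirr
  obtain ⟨B, hB, hfB⟩ : ∃ B : ℕ, 2 ≤ B ∧ ∀ m, |f.coeff m| ≤ (B : ℤ) := by
    refine ⟨(f.support.sup fun m => (f.coeff m).natAbs) + 2, by omega, fun m => ?_⟩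
    rw [Int.abs_eq_natAbs]
    by_cases hm : m ∈ f.support
    · have := Finset.le_sup (f := fun m => (f.coeff m).natAbs) hm
      exact_mod_cast this.trans (Nat.le_add_right _ _)
    · rw [MvPolynomial.notMem_support_iff.1 hm, Int.natAbs_zero]
      positivity
  refine ⟨E, B, N, hB, hfB, ?_⟩
  intro S H hS hHS F hF hFf hFb
  obtain ⟨h, hh⟩ : ∃ h : ℕ, h = B * S ^ n := ⟨_, rfl⟩
  have hh2 : 2 ≤ h := by
    rw [hh]
    have : 1 ≤ S ^ n := Nat.one_le_pow _ _ hS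
    nlinarith
  -- heights
  have hht : ∀ c : ℤ, |c| ≤ (H : ℤ) → ∀ m, |(F + C c).coeff m| ≤ (h : ℤ) := by
    intro c hc m
    have hSn : (1 : ℤ) ≤ (S : ℤ) ^ n := by exact_mod_cast Nat.one_le_pow n S hS
    have hB2 : (2 : ℤ) ≤ (B : ℤ) := by exact_mod_cast hB
    have hhz : (h : ℤ) = (B : ℤ) * (S : ℤ) ^ n := by rw [hh]; push_cast; rfl
    have hHn : (H : ℤ) ≤ (S : ℤ) ^ n := by
      have h1 : S ^ (n - 1) ≤ S ^ n := Nat.pow_le_pow_right hS (by omega)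
      exact_mod_cast hHS.trans h1
    have hSd : ∀ d, (S : ℤ) ^ (n - d) ≤ (S : ℤ) ^ n := by
      intro d
      exact_mod_cast Nat.pow_le_pow_right hS (by omega)
    rw [coeff_add, coeff_C]
    rcases lt_trichotomy m.degree n with h1 | h1 | h1
    · have h2 := (hFb m h1).trans (hSd _)
      split_ifs with h3
      · calc |F.coeff m + c| ≤ |F.coeff m| + |c| := abs_add_le _ _
          _ ≤ (S : ℤ) ^ n + (S : ℤ) ^ n := add_le_add h2 (hc.trans hHn)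
          _ ≤ h := by rw [hhz]; nlinarith
      · rw [add_zero]
        refine h2.trans ?_
        rw [hhz]
        nlinarith
    · have h2 : F.coeff m = f.coeff m := by
        rw [← hFf, coeff_homogeneousComponent, if_pos h1]
      rw [if_neg, add_zero, h2]
      · refine (hfB m).trans ?_
        rw [hhz]
        nlinarith
      · rintro rfl
        simp at h1
        omega
    · have h2 : F.coeff m = 0 := by
        by_contra h3
        have h4 := le_totalDegree (MvPolynomial.mem_support_iff.2 h3)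
        have h5 : (m.sum fun _ e => e) = m.degree := rfl
        omega
      rw [if_neg, add_zero, h2, abs_zero]
      · positivity
      · rintro rfl
        simp at h1
  set Pp : Set (ℤ × (Fin 2 → ℤ)) := {p | |p.1| ≤ (H : ℤ) ∧ H12.ON.Smooth (F + C p.1) ∧ eval p.2 (F + C p.1) = 0} with hPp
  -- the large points
  have hbig : {p ∈ Pp | ∃ i, (h : ℤ) ^ E < |p.2 i|}.encard ≤ N := by
    have hfinlarge : ∀ T : Finset (ℤ × (Fin 2 → ℤ)), (T : Set (ℤ × (Fin 2 → ℤ))) ⊆ {p ∈ Pp | ∃ i, (h : ℤ) ^ E < |p.2 i|} →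
        T.card ≤ N := by
      intro T hT
      refine hE F hF hFf h hh2 T ?_
      intro p hp
      obtain ⟨⟨h1, h2, h3⟩, i, hi⟩ := hT hp
      refine ⟨hht p.1 h1, h2, h3, hi.trans_le ?_⟩
      fin_cases i
      · exact le_max_left _ _
      · exact le_max_right _ _
    by_contra hcon
    rw [not_le] at hcon
    obtain ⟨T, hT1, hT2⟩ := Set.exists_subset_encard_eq (Order.add_one_le_of_lt hcon)
    have hTf : T.Finite := Set.finite_of_encard_eq_coe (k := N + 1) (by rw [hT2]; rfl)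
    have h1 := hfinlarge hTf.toFinset (by rw [Set.Finite.coe_toFinset]; exact hT1)
    have h2 : (hTf.toFinset.card : ℕ∞) = (N : ℕ∞) + 1 := by
      rw [← hT2, hTf.encard_eq_coe_toFinset_card]
    have h3 : hTf.toFinset.card = N + 1 := by exact_mod_cast h2
    omega
  -- the other points
  obtain ⟨T, hTd⟩ : ∃ T : Finset (ℤ × ℤ), T = ((Finset.Icc (-((h : ℤ) ^ E)) ((h : ℤ) ^ E)) ×ˢ
      (Finset.Icc (-((h : ℤ) ^ E)) ((h : ℤ) ^ E))).filter fun P => |ev n (co (vec n F)) P.1 P.2| ≤ (H : ℤ) := ⟨_, rfl⟩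
  have hT : ∀ P ∈ T, |ev n (co (vec n F)) P.1 P.2| ≤ (H : ℤ) ∧ max |P.1| |P.2| ≤ ((B : ℤ) * S ^ n) ^ E := by
    intro P hP
    rw [hTd, Finset.mem_filter, Finset.mem_product, Finset.mem_Icc, Finset.mem_Icc] at hP
    refine ⟨hP.2, ?_⟩
    have hhz : ((B : ℤ) * (S : ℤ) ^ n) = (h : ℤ) := by rw [hh]; push_cast; rfl
    rw [hhz]
    exact max_le (abs_le.2 hP.1.1) (abs_le.2 hP.1.2)
  have hevF : ∀ P : Fin 2 → ℤ, ev n (co (vec n F)) (P 0) (P 1) = eval P F := by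
    intro P
    rw [← pol_eval, pol_vec hF]
  have hsmall : {p ∈ Pp | ¬ ∃ i, (h : ℤ) ^ E < |p.2 i|}.encard ≤ (T.card : ℕ) := by
    rw [← Set.encard_coe_eq_coe_finsetCard]
    refine Set.encard_le_encard_of_injOn (f := fun p : ℤ × (Fin 2 → ℤ) => (p.2 0, p.2 1)) ?_ ?_
    · rintro ⟨c, P⟩ ⟨⟨h2, h3, h4⟩, h5⟩
      push Not at h5
      rw [hTd]
      simp only [Finset.coe_filter, Finset.mem_product, Finset.mem_Icc, Set.mem_ofPred_eq]
      refine ⟨⟨abs_le.1 (h5 0), abs_le.1 (h5 1)⟩, ?_⟩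
      rw [hevF]
      have h6 : eval P F = -c := by
        have h7 : eval P F + c = 0 := by simpa using h4
        linarith
      rw [h6, abs_neg]
      exact h2
    · rintro ⟨c, P⟩ ⟨⟨_, _, h4⟩, _⟩ ⟨c', P'⟩ ⟨⟨_, _, h4'⟩, _⟩ h2
      simp only [Prod.mk.injEq] at h2
      have hPP : P = P' := by
        funext i
        fin_cases i
        · exact h2.1
        · exact h2.2
      subst hPP
      have h7 : eval P F + c = 0 := by simpa using h4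
      have h8 : eval P F + c' = 0 := by simpa using h4'
      have h9 : c = c' := by linarith
      rw [h9]
  have hPe : Pp.encard ≤ ((N + T.card : ℕ) : ℕ∞) := by
    have h1 : Pp ⊆ {p ∈ Pp | ∃ i, (h : ℤ) ^ E < |p.2 i|} ∪ {p ∈ Pp | ¬ ∃ i, (h : ℤ) ^ E < |p.2 i|} := by
      intro p hp
      by_cases h2 : ∃ i, (h : ℤ) ^ E < |p.2 i|
      · exact Or.inl ⟨hp, h2⟩
      · exact Or.inr ⟨hp, h2⟩
    refine (Set.encard_le_encard h1).trans ((Set.encard_union_le _ _).trans ?_)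
    push_cast
    exact add_le_add hbig hsmall
  have hPfin : Pp.Finite := Set.finite_of_encard_le_coe hPe
  have hPn : Pp.ncard ≤ N + T.card := by
    have h1 := hPfin.cast_ncard_eq
    rw [← h1] at hPe
    exact_mod_cast hPe
  -- the constants
  set Z : Set ℤ := {c : ℤ | |c| ≤ (H : ℤ) ∧ ∃ P : Fin 2 → ℤ, eval P (F + C c) = 0} with hZ
  set Sg : Set ℤ := {τ : ℤ | ∃ a b : ℂ, aeval ![a, b] (F + C τ) = 0 ∧ aeval ![a, b] (pderiv 0 F) = 0 ∧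
          aeval ![a, b] (pderiv 1 F) = 0} with hSg
  have hSge : Sg.encard ≤ ((2 * n) ^ 2 : ℕ) := H2.AA.sng (by omega) F hF (by rw [hFf]; exact hirr)
  have hSgf : Sg.Finite := Set.finite_of_encard_le_coe hSge
  have hSgn : Sg.ncard ≤ (2 * n) ^ 2 := by
    have h1 := hSgf.cast_ncard_eq
    rw [← h1] at hSge
    exact_mod_cast hSge
  have hZsub : Z ⊆ (Prod.fst '' Pp) ∪ Sg := by
    rintro c ⟨h1, P, h2⟩
    by_cases h3 : H12.ON.Smooth (F + C c)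
    · exact Or.inl ⟨(c, P), ⟨h1, h3, h2⟩, rfl⟩
    · right
      unfold H12.ON.Smooth at h3
      push Not at h3
      obtain ⟨a, b, k1, k2, k3⟩ := h3
      rw [map_add, pderiv_C, add_zero] at k2 k3
      exact ⟨a, b, k1, k2, k3⟩
  have hZn : Z.ncard ≤ N + T.card + (2 * n) ^ 2 := by
    calc Z.ncard ≤ ((Prod.fst '' Pp) ∪ Sg).ncard := Set.ncard_le_ncard hZsub ((hPfin.image _).union hSgf)
      _ ≤ (Prod.fst '' Pp).ncard + Sg.ncard := Set.ncard_union_le _ _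
      _ ≤ Pp.ncard + Sg.ncard := Nat.add_le_add_right (Set.ncard_image_le hPfin) _
      _ ≤ _ := Nat.add_le_add hPn hSgn
  exact ⟨T, hT, hZn, hPfin, hPn⟩

/-- THEOREM UC++ -/
theorem main5 (n : ℕ) (hn : 4 ≤ n) (f : MvPolynomial (Fin 2) ℤ) (hf : f.IsHomogeneous n)
    (hirr : Irreducible (map (Int.castRingHom ℚ) f)) (ε : ℝ) (hε : 0 < ε) : ∃ κ : ℝ, ∀ S H : ℕ, 1 ≤ S → 1 ≤ H →
    ∀ F : MvPolynomial (Fin 2) ℤ, F.totalDegree ≤ n → homogeneousComponent n F = f →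
    (∀ m : Fin 2 →₀ ℕ, m.degree < n → |F.coeff m| ≤ (S : ℤ) ^ (n - m.degree)) →
    (({c : ℤ | |c| ≤ (H : ℤ) ∧ ∃ P : Fin 2 → ℤ, eval P (F + C c) = 0}.ncard : ℕ) : ℝ) ≤
      κ * (S + (H : ℝ) ^ (3 / (n : ℝ) + ε)) ∧
    {p : ℤ × (Fin 2 → ℤ) | |p.1| ≤ (H : ℤ) ∧ H12.ON.Smooth (F + C p.1) ∧ eval p.2 (F + C p.1) = 0}.Finite ∧
    (({p : ℤ × (Fin 2 → ℤ) | |p.1| ≤ (H : ℤ) ∧ H12.ON.Smooth (F + C p.1) ∧
      eval p.2 (F + C p.1) = 0}.ncard : ℕ) : ℝ) ≤ κ * (S + (H : ℝ) ^ (3 / (n : ℝ) + ε)) := by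
  obtain ⟨E, B, N, hB, hfB, hcount⟩ := count5 n hn f hf hirr
  obtain ⟨C₁, hC₁, hpts⟩ := pts3 n hn f hirr hf B hB hfB E
  obtain ⟨c, hc, hnum⟩ := num n hn ε hε
  refine ⟨C₁ * (2 * c + 1) + N + (2 * n) ^ 2, ?_⟩
  intro S H hS hH F hF hFf hFb
  obtain ⟨S', hSS', hHS', h1, h2, h3, h4⟩ := hnum S H hS hH
  have hFb' : ∀ m : Fin 2 →₀ ℕ, m.degree < n → |F.coeff m| ≤ (S' : ℤ) ^ (n - m.degree) := by
    intro m hm
    refine (hFb m hm).trans ?_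
    exact_mod_cast Nat.pow_le_pow_left hSS' _
  obtain ⟨T, hT, hZ, hfin, hP⟩ := hcount S' H (hS.trans hSS') hHS' F hF hFf hFb'
  have hTc := hpts S' H (hS.trans hSS') hH hHS' F hF hFf hFb' T hT
  obtain ⟨Y, hY⟩ : ∃ Y : ℝ, Y = S + (H : ℝ) ^ (3 / (n : ℝ) + ε) := ⟨_, rfl⟩
  rw [← hY] at h1 h2 h3 h4 ⊢
  have h5 : (T.card : ℝ) ≤ C₁ * (2 * c + 1) * Y := by
    refine hTc.trans ?_
    have h6 : ((S' : ℝ) ^ (2 / 3 : ℝ) * (1 + Real.log S') + H / (S' : ℝ) ^ (n - 2)) * (H : ℝ) ^ (1 / (n : ℝ)) +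
        S' + (H : ℝ) ^ (3 / (n : ℝ)) ≤ (2 * c + 1) * Y := by linarith
    calc _ ≤ C₁ * ((2 * c + 1) * Y) := mul_le_mul_of_nonneg_left h6 hC₁
      _ = _ := by ring
  have hn0 : (0 : ℝ) ≤ N := Nat.cast_nonneg N
  have h6 : (N : ℝ) ≤ N * Y := le_mul_of_one_le_right hn0 h2
  have h7 : (2 * (n : ℝ)) ^ 2 ≤ (2 * (n : ℝ)) ^ 2 * Y := le_mul_of_one_le_right (by positivity) h2
  refine ⟨?_, hfin, ?_⟩
  · have h8 : (({c : ℤ | |c| ≤ (H : ℤ) ∧ ∃ P : Fin 2 → ℤ, eval P (F + C c) = 0}.ncard : ℕ) : ℝ) ≤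
        N + T.card + (2 * n) ^ 2 := by exact_mod_cast hZ
    refine h8.trans ?_
    linarith
  · have h8 : (({p : ℤ × (Fin 2 → ℤ) | |p.1| ≤ (H : ℤ) ∧ H12.ON.Smooth (F + C p.1) ∧
        eval p.2 (F + C p.1) = 0}.ncard : ℕ) : ℝ) ≤ N + T.card := by exact_mod_cast hP
    refine h8.trans ?_
    have : (0 : ℝ) ≤ (2 * (n : ℝ)) ^ 2 * Y := by positivity
    linarith

end Pool.Agent.H8.UC
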