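import Pool.Agent.H6.AC.Str3
import Pool.Agent.H8.AA.Med

/-! # [H8 UC MED4] The middle range of UC+, the scales start at `X₀ ≥ S` (helper6)

`Med3` with one more parameter `X₀ ≥ S`: the range is `K X₀ ≤ |P|`, so the sum of `H / 2^(s (n-2))` over the scales `2^s ≥ X₀` is `≤ C H / X₀^(n-2)`.

As `H8.AA.med` (`H42/AA/Half, Half2, Half3`) with `H6.AC.str3`. First one chart (`|y| ≤ |x|`), then `sw e` (`ev_sw`, `ir_sw`). CLASS of `(x,y)`: the
sign of `x`; `s = Nat.log 2 |x|` (`X = 2^s ≤ |x| < 2^(s+1)`; `K S ≤ X`); `W = W_s := S^(2/3) + H/X^(n-2)` (real; `1 ≤ W`, `S² ≤ W³`, `H ≤ W X^(n-2)`); the window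
`⌊(|x| - X) K W / X⌋₊ ≤ K W`; the piece = number of real roots of `(fm e n)'` below `y/x`. At `t_j = y_j/x_j`: `|φ_n(t_j)| ≤ C/K < c₀`, so `φ_n' ≠ 0` there.
In one class all triples are collinear (`str3`), so it has `≤ n (2 H^(1/n) + 1)` points (`cls`). Number of classes: `2 n ∑_s (K W_s + 1)` over the `s` with
`X₀ ≤ 2^s ≤ (B S^n)^E`: the number of `s` is `≤ C (1 + log S)`, `∑ H/2^(s(n-2)) ≤ C H/X₀^(n-2)`. -/

namespace Pool.Agent.H8.UC

open Polynomial Pool.Agent.H8.AA Pool.Agent.H42.AA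

/-- number of windows at the scale `2 ^ s` -/
private noncomputable def W3 (n S H s : ℕ) : ℝ := (S : ℝ) ^ (2 / 3 : ℝ) + H / ((2 : ℝ) ^ s) ^ (n - 2)

private theorem W3_one {n S H s : ℕ} (hS : 1 ≤ S) : 1 ≤ W3 n S H s := by
  unfold W3
  have h1 : (1 : ℝ) ≤ (S : ℝ) ^ (2 / 3 : ℝ) := Real.one_le_rpow (by exact_mod_cast hS) (by norm_num)
  have h2 : (0 : ℝ) ≤ H / ((2 : ℝ) ^ s) ^ (n - 2) := by positivity
  linarith

private theorem W3_cube {n S H s : ℕ} (_hS : 1 ≤ S) : (S : ℝ) ^ 2 ≤ W3 n S H s ^ 3 := by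
  have hS0 : (0 : ℝ) ≤ (S : ℝ) := Nat.cast_nonneg _
  have h1 : ((S : ℝ) ^ (2 / 3 : ℝ)) ^ 3 = (S : ℝ) ^ 2 := by
    rw [← Real.rpow_natCast ((S : ℝ) ^ (2 / 3 : ℝ)) 3, ← Real.rpow_mul hS0]
    norm_num
  rw [← h1]
  apply pow_le_pow_left₀ (Real.rpow_nonneg hS0 _)
  unfold W3
  have h2 : (0 : ℝ) ≤ H / ((2 : ℝ) ^ s) ^ (n - 2) := by positivity
  linarith

private theorem W3_H {n S H s : ℕ} : (H : ℝ) ≤ W3 n S H s * ((2 : ℝ) ^ s) ^ (n - 2) := by
  unfold W3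
  have hS0 : (0 : ℝ) ≤ (S : ℝ) ^ (2 / 3 : ℝ) := Real.rpow_nonneg (Nat.cast_nonneg _) _
  have hp : (0 : ℝ) < ((2 : ℝ) ^ s) ^ (n - 2) := by positivity
  rw [add_mul, div_mul_cancel₀ _ hp.ne']
  have : 0 ≤ (S : ℝ) ^ (2 / 3 : ℝ) * ((2 : ℝ) ^ s) ^ (n - 2) := by positivity
  linarith

private theorem fm_le3 {n B S : ℕ} {e : ℕ → ℕ → ℤ}
    (hb : ∀ a b, a + b ≤ n → |e a b| ≤ (B * S ^ (n - (a + b)) : ℤ)) {k : ℕ} (hk : k ≤ n) {t : ℝ} (ht : |t| ≤ 1) :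
    |aeval t (fm e k)| ≤ ((k : ℝ) + 1) * (B * (S : ℝ) ^ (n - k)) := by
  rw [fm_aeval]
  calc |∑ j ∈ Finset.range (k + 1), (e (k - j) j : ℝ) * t ^ j|
      ≤ ∑ j ∈ Finset.range (k + 1), |(e (k - j) j : ℝ) * t ^ j| := Finset.abs_sum_le_sum_abs _ _
    _ ≤ ∑ j ∈ Finset.range (k + 1), (B * (S : ℝ) ^ (n - k)) := by
        refine Finset.sum_le_sum fun j hj => ?_
        have hj' : j ≤ k := by
          have := Finset.mem_range.1 hj
          omega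
        have h1 : |e (k - j) j| ≤ (B * S ^ (n - k) : ℤ) := by
          have h := hb (k - j) j (by omega)
          rwa [Nat.sub_add_cancel hj'] at h
        have h2 : |(e (k - j) j : ℝ)| ≤ (B * (S : ℝ) ^ (n - k)) := by exact_mod_cast h1
        have h3 : |t ^ j| ≤ 1 := by
          rw [abs_pow]
          exact pow_le_one₀ (abs_nonneg _) ht
        rw [abs_mul]
        calc |(e (k - j) j : ℝ)| * |t ^ j| ≤ (B * (S : ℝ) ^ (n - k)) * 1 :=
              mul_le_mul h2 h3 (abs_nonneg _) (by positivity)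
          _ = (B * (S : ℝ) ^ (n - k)) := mul_one _
    _ = ((k : ℝ) + 1) * (B * (S : ℝ) ^ (n - k)) := by
        rw [Finset.sum_const, Finset.card_range, nsmul_eq_mul]
        push_cast
        ring

/-- the top form is small at the slope of a point with small value -/
private theorem small3 {n B S H : ℕ} (hn : 2 ≤ n) (hS : 1 ≤ S) (hHS : H ≤ S ^ (n - 1)) {e : ℕ → ℕ → ℤ}
    (hb : ∀ a b, a + b ≤ n → |e a b| ≤ (B * S ^ (n - (a + b)) : ℤ)) {x y : ℤ} (hx : (S : ℝ) ≤ |(x : ℝ)|)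
    (hxy : |y| ≤ |x|) (hev : |ev n e x y| ≤ (H : ℤ)) :
    |aeval ((y : ℝ) / x) (fm e n)| ≤ (1 + (n : ℝ) ^ 2 * B) * (S / |(x : ℝ)|) := by
  have hS1 : (1 : ℝ) ≤ S := by exact_mod_cast hS
  have hx1 : 1 ≤ |(x : ℝ)| := hS1.trans hx
  have hx0 : 0 < |(x : ℝ)| := by linarith
  have hx' : (x : ℝ) ≠ 0 := by
    intro h
    rw [h, abs_zero] at hx0
    exact lt_irrefl _ hx0
  have hxz : x ≠ 0 := by exact_mod_cast hx'
  have ht : |(y : ℝ) / x| ≤ 1 := by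
    rw [abs_div, div_le_one hx0]
    exact_mod_cast hxy
  have hr0 : 0 ≤ (S : ℝ) / |(x : ℝ)| := by positivity
  have hr1 : (S : ℝ) / |(x : ℝ)| ≤ 1 := by
    rw [div_le_one hx0]
    exact hx
  have h1 := ev_eq n e x y hxz
  rw [Finset.sum_range_succ] at h1
  simp only [Nat.sub_self, pow_zero, one_mul] at h1
  set t : ℝ := (y : ℝ) / x with htdef
  set R : ℝ := ∑ k ∈ Finset.range n, (1 / (x : ℝ)) ^ (n - k) * aeval t (fm e k) with hR
  have hxn : (x : ℝ) ^ n ≠ 0 := pow_ne_zero _ hx'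
  have h2 : aeval t (fm e n) = (ev n e x y : ℝ) / (x : ℝ) ^ n - R := by
    rw [h1]
    field_simp
    ring
  have h3 : |(ev n e x y : ℝ) / (x : ℝ) ^ n| ≤ S / |(x : ℝ)| := by
    rw [abs_div, abs_pow]
    have h4 : |(ev n e x y : ℝ)| ≤ (H : ℝ) := by exact_mod_cast hev
    have h5 : (H : ℝ) ≤ (S : ℝ) ^ (n - 1) := by exact_mod_cast hHS
    have h6 : |(x : ℝ)| ^ n = |(x : ℝ)| ^ (n - 1) * |(x : ℝ)| := by
      rw [← pow_succ]
      congr 1
      omega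
    have h7 : (S : ℝ) ^ (n - 1) ≤ S * |(x : ℝ)| ^ (n - 1) := by
      calc (S : ℝ) ^ (n - 1) ≤ |(x : ℝ)| ^ (n - 1) := pow_le_pow_left₀ (by linarith) hx _
        _ = 1 * |(x : ℝ)| ^ (n - 1) := (one_mul _).symm
        _ ≤ S * |(x : ℝ)| ^ (n - 1) := mul_le_mul_of_nonneg_right hS1 (by positivity)
    rw [h6, div_le_div_iff₀ (by positivity) hx0]
    calc |(ev n e x y : ℝ)| * |(x : ℝ)| ≤ (S * |(x : ℝ)| ^ (n - 1)) * |(x : ℝ)| :=
          mul_le_mul_of_nonneg_right (h4.trans (h5.trans h7)) hx0.le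
      _ = S * (|(x : ℝ)| ^ (n - 1) * |(x : ℝ)|) := by ring
  have h4 : |R| ≤ (n : ℝ) ^ 2 * B * (S / |(x : ℝ)|) := by
    calc |R| ≤ ∑ k ∈ Finset.range n, |(1 / (x : ℝ)) ^ (n - k) * aeval t (fm e k)| :=
          Finset.abs_sum_le_sum_abs _ _
      _ ≤ ∑ k ∈ Finset.range n, ((n : ℝ) * B * (S / |(x : ℝ)|)) := by
          refine Finset.sum_le_sum fun k hk => ?_
          have hk' := Finset.mem_range.1 hk
          rw [abs_mul]
          have h5 : |aeval t (fm e k)| ≤ (n : ℝ) * (B * (S : ℝ) ^ (n - k)) := by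
            refine (fm_le3 hb (by omega) ht).trans ?_
            have h6 : (k : ℝ) + 1 ≤ n := by exact_mod_cast hk'
            exact mul_le_mul_of_nonneg_right h6 (by positivity)
          have h7 : |(1 / (x : ℝ)) ^ (n - k)| = 1 / |(x : ℝ)| ^ (n - k) := by
            rw [abs_pow, abs_div, abs_one, div_pow, one_pow]
          rw [h7]
          calc 1 / |(x : ℝ)| ^ (n - k) * |aeval t (fm e k)|
              ≤ 1 / |(x : ℝ)| ^ (n - k) * ((n : ℝ) * (B * (S : ℝ) ^ (n - k))) :=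
                mul_le_mul_of_nonneg_left h5 (by positivity)
            _ = (n : ℝ) * B * (S / |(x : ℝ)|) ^ (n - k) := by
                rw [div_pow]
                ring
            _ ≤ (n : ℝ) * B * (S / |(x : ℝ)|) ^ 1 := by
                apply mul_le_mul_of_nonneg_left _ (by positivity)
                exact pow_le_pow_of_le_one hr0 hr1 (by omega)
            _ = (n : ℝ) * B * (S / |(x : ℝ)|) := by rw [pow_one]
      _ = (n : ℝ) ^ 2 * B * (S / |(x : ℝ)|) := by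
          rw [Finset.sum_const, Finset.card_range, nsmul_eq_mul]
          ring
  rw [h2]
  calc |(ev n e x y : ℝ) / (x : ℝ) ^ n - R|
      ≤ |(ev n e x y : ℝ) / (x : ℝ) ^ n| + |R| := abs_sub _ _
    _ ≤ S / |(x : ℝ)| + (n : ℝ) ^ 2 * B * (S / |(x : ℝ)|) := add_le_add h3 h4
    _ = (1 + (n : ℝ) ^ 2 * B) * (S / |(x : ℝ)|) := by ring

/-- the points of one class at the scale `2 ^ s` are collinear -/
private theorem fib3 (n : ℕ) (hn : 4 ≤ n) (B : ℕ) (hB : 2 ≤ B) (c₀ : ℝ) (hc₀ : 0 < c₀) : ∃ K : ℝ, 1 ≤ K ∧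
    ∀ (e : ℕ → ℕ → ℤ) (S H s : ℕ), 1 ≤ S → 1 ≤ H → H ≤ S ^ (n - 1) →
    (∀ a b, a + b ≤ n → |e a b| ≤ (B * S ^ (n - (a + b)) : ℤ)) → Ir n e → Gd n c₀ e →
    ∀ T : Finset (ℤ × ℤ),
    (∀ P ∈ T, |ev n e P.1 P.2| ≤ (H : ℤ) ∧ |P.2| ≤ |P.1| ∧
      (2 * K + (1 + n ^ 2 * B) / c₀) * S ≤ (|P.1| : ℤ) ∧ sc P.1 = s) →
    ∀ c, ((T.filter (fun P => kl n e (K * W3 n S H s) P = c)).card : ℝ) ≤
      n * (2 * (H : ℝ) ^ (1 / (n : ℝ)) + 1) := by
  obtain ⟨K, hK, hstr⟩ := Pool.Agent.H6.AC.str3 n (by omega) B c₀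
    (by exact_mod_cast (by omega : 1 ≤ B)) hc₀
  refine ⟨K, hK, ?_⟩
  intro e S H s hS hH hHS hb hI hG T hT c
  have hH' : (1 : ℝ) ≤ (H : ℝ) := by exact_mod_cast hH
  have hS' : (1 : ℝ) ≤ (S : ℝ) := by exact_mod_cast hS
  have hHS' : (H : ℝ) ≤ (S : ℝ) ^ (n - 1) := by exact_mod_cast hHS
  have hW := W3_one (n := n) (S := S) (H := H) (s := s) hS
  have hκ : 0 < K * W3 n S H s := by
    have : 0 < W3 n S H s := by linarith
    positivity
  have hb' : ∀ a b, a + b ≤ n → |(e a b : ℝ)| ≤ (B : ℝ) * (S : ℝ) ^ (n - (a + b)) := by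
    intro a b hab
    exact_mod_cast hb a b hab
  have hq0 : 0 ≤ (1 + (n : ℝ) ^ 2 * B) / c₀ := by positivity
  -- facts on single points
  have hpt : ∀ P ∈ T, P.1 ≠ 0 ∧ |ev n e P.1 P.2| ≤ (H : ℤ) ∧ |P.2| ≤ |P.1| ∧
      (2 * K + (1 + (n : ℝ) ^ 2 * B) / c₀) * S ≤ |(P.1 : ℝ)| ∧ sc P.1 = s ∧
      aeval ((P.2 : ℝ) / P.1) (derivative (fm e n)) ≠ 0 := by
    intro P hP
    obtain ⟨h1, h2, h3, h3s⟩ := hT P hP
    have h3' : (2 * K + (1 + (n : ℝ) ^ 2 * B) / c₀) * S ≤ |(P.1 : ℝ)| := by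
      rw [Int.cast_abs] at h3
      exact h3
    have hSx : (S : ℝ) ≤ |(P.1 : ℝ)| := by
      refine le_trans ?_ h3'
      nlinarith
    have hx0 : 0 < |(P.1 : ℝ)| := by linarith
    have hx : P.1 ≠ 0 := by
      intro h4
      rw [h4] at hx0
      simp at hx0
    refine ⟨hx, h1, h2, h3', h3s, ?_⟩
    have h4 := small3 (by omega : 2 ≤ n) hS hHS hb hSx h2 h1
    have h5 : (1 + (n : ℝ) ^ 2 * B) * (S / |(P.1 : ℝ)|) ≤ c₀ := by
      rw [← mul_div_assoc, div_le_iff₀ hx0]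
      have h6 : (1 + (n : ℝ) ^ 2 * B) / c₀ * S ≤ |(P.1 : ℝ)| := by
        refine le_trans ?_ h3'
        apply mul_le_mul_of_nonneg_right _ (by linarith)
        linarith
      calc (1 + (n : ℝ) ^ 2 * B) * S = c₀ * ((1 + (n : ℝ) ^ 2 * B) / c₀ * S) := by
            field_simp
        _ ≤ c₀ * |(P.1 : ℝ)| := mul_le_mul_of_nonneg_left h6 hc₀.le
    have ht : |((P.2 : ℝ) / P.1)| ≤ 1 := by
      rw [abs_div, div_le_one hx0]
      exact_mod_cast h2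
    rcases hG _ ht with h6 | h6
    · exact absurd h6 (not_lt.2 (h4.trans h5))
    · intro h7
      rw [h7, abs_zero] at h6
      linarith
  refine cls n (by omega) e hI H hH' _ ?_ ?_
  · -- collinear
    intro P hP Q hQ R hR
    rw [Finset.mem_filter] at hP hQ hR
    have hPQR : ∀ i : Fin 3, (![P, Q, R] i) ∈ T ∧ kl n e (K * W3 n S H s) (![P, Q, R] i) = c := by
      intro i
      fin_cases i
      · exact hP
      · exact hQ
      · exact hR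
    have hk : ∀ i j : Fin 3, kl n e (K * W3 n S H s) (![P, Q, R] i) =
        kl n e (K * W3 n S H s) (![P, Q, R] j) :=
      fun i j => (hPQR i).2.trans (hPQR j).2.symm
    have hsc : ∀ i : Fin 3, sc (![P, Q, R] i).1 = s := fun i => (hpt _ (hPQR i).1).2.2.2.2.1
    have key := hstr e S (W3 n S H s) ((2 : ℝ) ^ s) H hS' hW hHS' (W3_cube hS) W3_H hb' hG ?_
      (fun i => (![P, Q, R] i).1) (fun i => (![P, Q, R] i).2) ?_ ?_ ?_ ?_
    · exact key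
    · -- K S <= X
      have h1 := (hpt P hP.1).2.2.2.1
      have h2 := lt_sc P.1
      have h2' := (hpt P hP.1).2.2.2.2.1
      rw [h2'] at h2
      have h3 : (2 * K) * S ≤ (2 * K + (1 + (n : ℝ) ^ 2 * B) / c₀) * S :=
        mul_le_mul_of_nonneg_right (by linarith) (by linarith)
      linarith
    · intro i
      obtain ⟨h1, h2, h3, h4, h5, h6⟩ := hpt _ (hPQR i).1
      refine ⟨?_, ?_, h3, ?_⟩
      · have := sc_le h1
        rw [hsc i] at this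
        exact this
      · have := lt_sc (![P, Q, R] i).1
        rw [hsc i] at this
        exact this.le
      · exact_mod_cast h2
    · intro i j
      exact sign_of_kl (hpt _ (hPQR i).1).1 (hpt _ (hPQR j).1).1
        (congrArg (fun z : Bool × ℕ × ℕ × ℕ => z.1) (hk i j))
    · intro i j
      have h0 : 0 < (![P, Q, R] i).1 * (![P, Q, R] j).1 :=
        sign_of_kl (hpt _ (hPQR i).1).1 (hpt _ (hPQR j).1).1
          (congrArg (fun z : Bool × ℕ × ℕ × ℕ => z.1) (hk i j))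
      have h0' : (0 : ℝ) < ((![P, Q, R] i).1 : ℝ) * ((![P, Q, R] j).1 : ℝ) := by exact_mod_cast h0
      show |((![P, Q, R] i).1 : ℝ) - ((![P, Q, R] j).1 : ℝ)| ≤ (2 : ℝ) ^ s / (K * W3 n S H s)
      rw [abs_sub_of_pos h0']
      have h1 := wi_close hκ (hpt _ (hPQR i).1).1 (hpt _ (hPQR j).1).1
        ((hsc i).trans (hsc j).symm) (congrArg (fun z : Bool × ℕ × ℕ × ℕ => z.2.2.1) (hk i j))
      rw [hsc i] at h1
      exact h1
    · intro i j r hr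
      have hc : cb n e (((![P, Q, R] i).2 : ℝ) / (![P, Q, R] i).1) =
          cb n e (((![P, Q, R] j).2 : ℝ) / (![P, Q, R] j).1) :=
        congrArg (fun z : Bool × ℕ × ℕ × ℕ => z.2.2.2) (hk i j)
      rw [Set.mem_uIcc] at hr
      rcases hr with ⟨h1, h2⟩ | ⟨h1, h2⟩
      · rcases h2.lt_or_eq with h3 | h3
        · exact no_crit (by omega) hI.1 h1 h3 hc
        · rw [h3]
          exact (hpt _ (hPQR j).1).2.2.2.2.2
      · rcases h2.lt_or_eq with h3 | h3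
        · exact no_crit (by omega) hI.1 h1 h3 hc.symm
        · rw [h3]
          exact (hpt _ (hPQR i).1).2.2.2.2.2
  · intro P hP
    rw [Finset.mem_filter] at hP
    have h1 := (hpt P hP.1).2.1
    exact_mod_cast h1

/-- the number of points at one scale -/
private theorem scale3 {n : ℕ} (hn : 4 ≤ n) {e : ℕ → ℕ → ℤ} {K M : ℝ} {S H s : ℕ} (hK : 1 ≤ K) (hM : 0 ≤ M)
    (hS : 1 ≤ S) (T : Finset (ℤ × ℤ)) (hT : ∀ P ∈ T, P.1 ≠ 0 ∧ sc P.1 = s)
    (hf : ∀ c, ((T.filter (fun P => kl n e (K * W3 n S H s) P = c)).card : ℝ) ≤ M) :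
    (T.card : ℝ) ≤ 2 * ((K * W3 n S H s + 1) * n) * M := by
  have hW := W3_one (n := n) (S := S) (H := H) (s := s) hS
  have hκ : 0 < K * W3 n S H s := by
    have : 0 < W3 n S H s := by linarith
    positivity
  set R : Finset (Bool × ℕ × ℕ × ℕ) :=
    (Finset.univ : Finset Bool) ×ˢ ({s} ×ˢ
      (Finset.range (⌊K * W3 n S H s⌋₊ + 1) ×ˢ Finset.range n)) with hR
  have hmaps : ∀ P ∈ T, kl n e (K * W3 n S H s) P ∈ R := by
    intro P hP
    obtain ⟨hx, hs⟩ := hT P hP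
    have h5 := sc_le hx
    have h6 := lt_sc P.1
    rw [hR]
    simp only [Finset.mem_product, Finset.mem_univ, true_and, kl, Finset.mem_range, Finset.mem_singleton]
    refine ⟨hs, ?_, cb_lt (by omega) e _⟩
    rw [Nat.lt_succ_iff]
    unfold wi
    apply Nat.floor_le_floor
    have hX0 : (0 : ℝ) < 2 ^ sc P.1 := by positivity
    rw [div_le_iff₀ hX0]
    have h7 : |(P.1 : ℝ)| - 2 ^ sc P.1 ≤ 2 ^ sc P.1 := by linarith
    calc (|(P.1 : ℝ)| - 2 ^ sc P.1) * (K * W3 n S H s) ≤ 2 ^ sc P.1 * (K * W3 n S H s) :=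
          mul_le_mul_of_nonneg_right h7 hκ.le
      _ = K * W3 n S H s * 2 ^ sc P.1 := by ring
  have hcard : (T.card : ℝ) ≤ R.card * M := by
    rw [Finset.card_eq_sum_card_fiberwise hmaps]
    push_cast
    calc ∑ c ∈ R, ((T.filter (fun P => kl n e (K * W3 n S H s) P = c)).card : ℝ) ≤ ∑ c ∈ R, M :=
          Finset.sum_le_sum fun c _ => hf c
      _ = R.card * M := by rw [Finset.sum_const, nsmul_eq_mul]
  have hRc : (R.card : ℝ) = 2 * ((⌊K * W3 n S H s⌋₊ + 1 : ℕ) * n) := by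
    rw [hR, Finset.card_product, Finset.card_product, Finset.card_product, Finset.card_singleton,
      Finset.card_range, Finset.card_range, Finset.card_univ, Fintype.card_bool]
    push_cast
    ring
  refine hcard.trans ?_
  apply mul_le_mul_of_nonneg_right _ hM
  rw [hRc]
  apply mul_le_mul_of_nonneg_left _ (by norm_num)
  apply mul_le_mul_of_nonneg_right _ (Nat.cast_nonneg _)
  have h1 := Nat.floor_le hκ.le
  push_cast
  linarith

/-- the sum over the scales -/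
private theorem sum3 {n S H N X₀ : ℕ} {K L : ℝ} (hn : 4 ≤ n) (hS : 1 ≤ S) (hX : S ≤ X₀) (hK : 1 ≤ K)
    (hN : (N : ℝ) ≤ L) :
    ∑ s ∈ (Finset.range N).filter (fun s => X₀ ≤ 2 ^ s), (K * W3 n S H s + 1) ≤
      2 * K * (L * (S : ℝ) ^ (2 / 3 : ℝ) + H / (X₀ : ℝ) ^ (n - 2)) := by
  have hS' : (1 : ℝ) ≤ (S : ℝ) := by exact_mod_cast hS
  have hX0 : (0 : ℝ) < (X₀ : ℝ) := by
    have : (S : ℝ) ≤ (X₀ : ℝ) := by exact_mod_cast hX
    linarith
  have hw : (1 : ℝ) ≤ (S : ℝ) ^ (2 / 3 : ℝ) := Real.one_le_rpow hS' (by norm_num)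
  set x : ℝ := (1 / 2 : ℝ) ^ (n - 2) with hx
  have hx0 : 0 ≤ x := by positivity
  have hx1 : x ≤ 1 / 2 := by
    rw [hx]
    calc (1 / 2 : ℝ) ^ (n - 2) ≤ (1 / 2 : ℝ) ^ 1 :=
          pow_le_pow_of_le_one (by norm_num) (by norm_num) (by omega)
      _ = 1 / 2 := pow_one _
  have hterm : ∀ s : ℕ, (H : ℝ) / ((2 : ℝ) ^ s) ^ (n - 2) = H * x ^ s := by
    intro s
    rw [hx, ← pow_mul, ← pow_mul, div_pow, one_pow, mul_comm (n - 2) s]
    ring
  -- the smallest scale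
  set A := (Finset.range N).filter (fun s => X₀ ≤ 2 ^ s) with hA
  have hsub : A ⊆ Finset.Ico (Nat.clog 2 X₀) N := by
    intro s hs
    rw [hA, Finset.mem_filter, Finset.mem_range] at hs
    rw [Finset.mem_Ico]
    exact ⟨Nat.clog_le_of_le_pow hs.2, hs.1⟩
  have hgeo : ∑ s ∈ A, x ^ s ≤ 2 * (1 / (X₀ : ℝ) ^ (n - 2)) := by
    calc ∑ s ∈ A, x ^ s ≤ ∑ s ∈ Finset.Ico (Nat.clog 2 X₀) N, x ^ s :=
          Finset.sum_le_sum_of_subset_of_nonneg hsub fun _ _ _ => by positivity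
      _ ≤ x ^ Nat.clog 2 X₀ / (1 - x) := geom_sum_Ico_le_of_lt_one hx0 (by linarith)
      _ ≤ x ^ Nat.clog 2 X₀ / (1 / 2) := by
          apply div_le_div_of_nonneg_left (by positivity) (by norm_num) (by linarith)
      _ = 2 * x ^ Nat.clog 2 X₀ := by ring
      _ ≤ 2 * (1 / (X₀ : ℝ) ^ (n - 2)) := by
          apply mul_le_mul_of_nonneg_left _ (by norm_num)
          have h1 : (X₀ : ℝ) ≤ (2 : ℝ) ^ Nat.clog 2 X₀ := by
            exact_mod_cast Nat.le_pow_clog one_lt_two X₀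
          have h2 : x ^ Nat.clog 2 X₀ = 1 / ((2 : ℝ) ^ Nat.clog 2 X₀) ^ (n - 2) := by
            rw [hx, ← pow_mul, ← pow_mul, div_pow, one_pow, mul_comm (n - 2)]
          rw [h2]
          apply one_div_le_one_div_of_le (by positivity)
          exact pow_le_pow_left₀ hX0.le h1 _
  have hcardA : (A.card : ℝ) ≤ L := by
    have h1 : A.card ≤ N := by
      rw [hA]
      exact (Finset.card_filter_le _ _).trans (by rw [Finset.card_range])
    have h2 : (A.card : ℝ) ≤ N := by exact_mod_cast h1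
    linarith
  have hsplit : ∑ s ∈ A, (K * W3 n S H s + 1) =
      A.card * (K * (S : ℝ) ^ (2 / 3 : ℝ) + 1) + K * H * ∑ s ∈ A, x ^ s := by
    rw [Finset.mul_sum, ← nsmul_eq_mul, ← Finset.sum_const, ← Finset.sum_add_distrib]
    apply Finset.sum_congr rfl
    intro s _
    unfold W3
    rw [hterm]
    ring
  rw [hsplit]
  have h1 : (A.card : ℝ) * (K * (S : ℝ) ^ (2 / 3 : ℝ) + 1) ≤ L * (2 * K * (S : ℝ) ^ (2 / 3 : ℝ)) := by
    apply mul_le_mul hcardA _ (by positivity) (by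
      have : (0 : ℝ) ≤ A.card := Nat.cast_nonneg _
      linarith)
    have : 1 ≤ K * (S : ℝ) ^ (2 / 3 : ℝ) := by nlinarith
    linarith
  have h2 : K * H * ∑ s ∈ A, x ^ s ≤ K * H * (2 * (1 / (X₀ : ℝ) ^ (n - 2))) :=
    mul_le_mul_of_nonneg_left hgeo (by positivity)
  calc _ ≤ L * (2 * K * (S : ℝ) ^ (2 / 3 : ℝ)) + K * H * (2 * (1 / (X₀ : ℝ) ^ (n - 2))) := add_le_add h1 h2
    _ = 2 * K * (L * (S : ℝ) ^ (2 / 3 : ℝ) + H / (X₀ : ℝ) ^ (n - 2)) := by ring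

/-- one chart -/
private theorem half3 (n : ℕ) (hn : 4 ≤ n) (B : ℕ) (hB : 2 ≤ B) (c₀ : ℝ) (hc₀ : 0 < c₀) (E : ℕ) :
    ∃ C K : ℝ, 0 ≤ C ∧ 1 ≤ K ∧
    ∀ (e : ℕ → ℕ → ℤ) (S H X₀ : ℕ), 1 ≤ S → 1 ≤ H → H ≤ S ^ (n - 1) → S ≤ X₀ →
    (∀ a b, a + b ≤ n → |e a b| ≤ (B * S ^ (n - (a + b)) : ℤ)) → Ir n e → Gd n c₀ e →
    ∀ T : Finset (ℤ × ℤ),
    (∀ P ∈ T, |ev n e P.1 P.2| ≤ (H : ℤ) ∧ |P.2| ≤ |P.1| ∧ K * X₀ ≤ (|P.1| : ℤ) ∧
      |P.1| ≤ ((B : ℤ) * S ^ n) ^ E) →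
    (T.card : ℝ) ≤ C * ((S : ℝ) ^ (2 / 3 : ℝ) * (1 + Real.log S) + H / (X₀ : ℝ) ^ (n - 2)) *
      (H : ℝ) ^ (1 / (n : ℝ)) := by
  obtain ⟨K, hK, hf⟩ := fib3 n hn B hB c₀ hc₀
  have hB' : (2 : ℝ) ≤ (B : ℝ) := by exact_mod_cast hB
  have hlogB : 0 ≤ Real.log B := Real.log_nonneg (by linarith)
  have hq0 : 0 ≤ (1 + (n : ℝ) ^ 2 * B) / c₀ := by positivity
  set L₀ : ℝ := 2 * E * (Real.log B + n) + 1 with hL₀
  have hL₀1 : 1 ≤ L₀ := by
    rw [hL₀]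
    have : 0 ≤ 2 * (E : ℝ) * (Real.log B + n) := by positivity
    linarith
  refine ⟨12 * (n : ℝ) ^ 2 * K * L₀, 2 * K + (1 + n ^ 2 * B) / c₀, by positivity, by linarith, ?_⟩
  intro e S H X₀ hS hH hHS hX hb hI hG T hT
  have hX' : (S : ℝ) ≤ (X₀ : ℝ) := by exact_mod_cast hX
  have hH' : (1 : ℝ) ≤ (H : ℝ) := by exact_mod_cast hH
  have hS' : (1 : ℝ) ≤ (S : ℝ) := by exact_mod_cast hS
  have hlogS : 0 ≤ Real.log S := Real.log_nonneg hS'
  set M : ℝ := (n : ℝ) * (2 * (H : ℝ) ^ (1 / (n : ℝ)) + 1) with hM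
  have hHn : (1 : ℝ) ≤ (H : ℝ) ^ (1 / (n : ℝ)) := Real.one_le_rpow hH' (by positivity)
  have hM0 : 0 ≤ M := by
    rw [hM]
    positivity
  have hn0 : (0 : ℝ) ≤ n := Nat.cast_nonneg _
  have hM3 : M ≤ 3 * n * (H : ℝ) ^ (1 / (n : ℝ)) := by
    rw [hM]
    nlinarith
  set N : ℕ := ⌊2 * (E : ℝ) * (Real.log B + n * Real.log S)⌋₊ + 1 with hN
  have hpt : ∀ P ∈ T, P.1 ≠ 0 ∧ X₀ ≤ 2 ^ sc P.1 ∧ sc P.1 < N := by
    intro P hP
    obtain ⟨h1, h2, h3, h4⟩ := hT P hP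
    have h3' : (2 * K + (1 + (n : ℝ) ^ 2 * B) / c₀) * X₀ ≤ |(P.1 : ℝ)| := by
      rw [Int.cast_abs] at h3
      exact h3
    have h3'' : 2 * (X₀ : ℝ) ≤ |(P.1 : ℝ)| := by
      refine le_trans ?_ h3'
      apply mul_le_mul_of_nonneg_right _ (by linarith)
      linarith
    have hx0 : 0 < |(P.1 : ℝ)| := by linarith
    have hx : P.1 ≠ 0 := by
      intro h5
      rw [h5] at hx0
      simp at hx0
    have h5 := sc_le hx
    have h6 := lt_sc P.1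
    refine ⟨hx, ?_, ?_⟩
    · have h7 : (X₀ : ℝ) ≤ (2 : ℝ) ^ sc P.1 := by linarith
      exact_mod_cast h7
    · rw [hN, Nat.lt_succ_iff]
      apply Nat.le_floor
      have h7 : |(P.1 : ℝ)| ≤ ((B : ℝ) * (S : ℝ) ^ n) ^ E := by exact_mod_cast h4
      have h8 : (2 : ℝ) ^ sc P.1 ≤ ((B : ℝ) * (S : ℝ) ^ n) ^ E := h5.trans h7
      have hB0 : (B : ℝ) ≠ 0 := by positivity
      have hS0 : (S : ℝ) ^ n ≠ 0 := by positivity
      have h9 : (sc P.1 : ℝ) * Real.log 2 ≤ E * (Real.log B + n * Real.log S) := by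
        have h10 := Real.log_le_log (by positivity) h8
        rw [Real.log_pow, Real.log_pow, Real.log_mul hB0 hS0, Real.log_pow] at h10
        exact h10
      have h11 : (1 : ℝ) / 2 ≤ Real.log 2 := by
        have := Real.log_two_gt_d9
        linarith
      have h12 : (0 : ℝ) ≤ (sc P.1 : ℝ) := Nat.cast_nonneg _
      nlinarith
  set A := (Finset.range N).filter (fun s => X₀ ≤ 2 ^ s) with hA
  have hmaps : ∀ P ∈ T, sc P.1 ∈ A := by
    intro P hP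
    rw [hA, Finset.mem_filter, Finset.mem_range]
    exact ⟨(hpt P hP).2.2, (hpt P hP).2.1⟩
  have hNL : (N : ℝ) ≤ L₀ * (1 + Real.log S) := by
    have h0 : 0 ≤ 2 * (E : ℝ) * (Real.log B + n * Real.log S) := by positivity
    have h1 := Nat.floor_le h0
    rw [hN, hL₀]
    push_cast
    have h2 : 0 ≤ 2 * (E : ℝ) * (Real.log B * Real.log S + n) := by positivity
    nlinarith
  have hcard : (T.card : ℝ) ≤ ∑ s ∈ A, 2 * ((K * W3 n S H s + 1) * n) * M := by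
    rw [Finset.card_eq_sum_card_fiberwise hmaps]
    push_cast
    refine Finset.sum_le_sum fun s _ => ?_
    apply scale3 hn hK hM0 hS
    · intro P hP
      rw [Finset.mem_filter] at hP
      exact ⟨(hpt P hP.1).1, hP.2⟩
    · intro c
      apply hf e S H s hS hH hHS hb hI hG
      intro P hP
      rw [Finset.mem_filter] at hP
      obtain ⟨h1, h2, h3, _⟩ := hT P hP.1
      refine ⟨h1, h2, le_trans ?_ h3, hP.2⟩
      exact mul_le_mul_of_nonneg_left hX' (by linarith)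
  have hsum := sum3 (H := H) hn hS hX hK hNL
  rw [← hA] at hsum
  have hS23 : 0 ≤ (S : ℝ) ^ (2 / 3 : ℝ) := Real.rpow_nonneg (by linarith) _
  calc (T.card : ℝ) ≤ ∑ s ∈ A, 2 * ((K * W3 n S H s + 1) * n) * M := hcard
    _ = 2 * n * M * ∑ s ∈ A, (K * W3 n S H s + 1) := by
        rw [Finset.mul_sum]
        apply Finset.sum_congr rfl
        intro s _
        ring
    _ ≤ 2 * n * M * (2 * K * (L₀ * (1 + Real.log S) * (S : ℝ) ^ (2 / 3 : ℝ) + H / (X₀ : ℝ) ^ (n - 2))) :=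
        mul_le_mul_of_nonneg_left hsum (by positivity)
    _ ≤ 2 * n * (3 * n * (H : ℝ) ^ (1 / (n : ℝ))) *
          (2 * K * (L₀ * ((1 + Real.log S) * (S : ℝ) ^ (2 / 3 : ℝ) + H / (X₀ : ℝ) ^ (n - 2)))) := by
        apply mul_le_mul
        · exact mul_le_mul_of_nonneg_left hM3 (by positivity)
        · apply mul_le_mul_of_nonneg_left _ (by positivity)
          have h1 : 0 ≤ (H : ℝ) / (X₀ : ℝ) ^ (n - 2) := by positivity
          nlinarith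
        · positivity
        · positivity
    _ = 12 * (n : ℝ) ^ 2 * K * L₀ *
          ((S : ℝ) ^ (2 / 3 : ℝ) * (1 + Real.log S) + H / (X₀ : ℝ) ^ (n - 2)) *
          (H : ℝ) ^ (1 / (n : ℝ)) := by ring

theorem med4 (n : ℕ) (hn : 4 ≤ n) (B : ℕ) (hB : 2 ≤ B) (c₀ : ℝ) (hc₀ : 0 < c₀) (E : ℕ) : ∃ C K : ℝ, 0 ≤ C ∧ 1 ≤ K ∧
    ∀ (e : ℕ → ℕ → ℤ) (S H X₀ : ℕ), 1 ≤ S → 1 ≤ H → H ≤ S ^ (n - 1) → S ≤ X₀ →
    (∀ a b, a + b ≤ n → |e a b| ≤ (B * S ^ (n - (a + b)) : ℤ)) → Ir n e → Gd n c₀ e → Gd n c₀ (sw e) →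
    ∀ T : Finset (ℤ × ℤ),
    (∀ P ∈ T, |ev n e P.1 P.2| ≤ (H : ℤ) ∧ K * X₀ ≤ (max |P.1| |P.2| : ℤ) ∧ max |P.1| |P.2| ≤ ((B : ℤ) * S ^ n) ^ E) →
    (T.card : ℝ) ≤ C * ((S : ℝ) ^ (2 / 3 : ℝ) * (1 + Real.log S) + H / (X₀ : ℝ) ^ (n - 2)) * (H : ℝ) ^ (1 / (n : ℝ)) := by
  obtain ⟨C, K, hC, hK, hh⟩ := half3 n hn B hB c₀ hc₀ E
  refine ⟨2 * C, K, by positivity, hK, ?_⟩
  intro e S H X₀ hS hH hHS hX hb hI hG hG' T hT
  have h1 := hh e S H X₀ hS hH hHS hX hb hI hG (T.filter fun P => |P.2| ≤ |P.1|) (by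
    intro P hP
    rw [Finset.mem_filter] at hP
    obtain ⟨h2, h3, h4⟩ := hT P hP.1
    rw [max_eq_left hP.2] at h3 h4
    exact ⟨h2, hP.2, h3, h4⟩)
  have hbs : ∀ a b, a + b ≤ n → |sw e a b| ≤ (B * S ^ (n - (a + b)) : ℤ) := by
    intro a b hab
    have h := hb b a (by omega)
    rw [Nat.add_comm b a] at h
    exact h
  have h2 := hh (sw e) S H X₀ hS hH hHS hX hbs (ir_sw n (by omega) e hI) hG'
    ((T.filter fun P => ¬ |P.2| ≤ |P.1|).image Prod.swap) (by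
    intro Q hQ
    rw [Finset.mem_image] at hQ
    obtain ⟨P, hP, rfl⟩ := hQ
    rw [Finset.mem_filter] at hP
    obtain ⟨h2, h3, h4⟩ := hT P hP.1
    have h5 : |P.1| ≤ |P.2| := (not_le.1 hP.2).le
    rw [max_eq_right h5] at h3 h4
    refine ⟨?_, h5, h3, h4⟩
    show |ev n (sw e) P.2 P.1| ≤ (H : ℤ)
    rw [ev_sw]
    exact h2)
  rw [Finset.card_image_of_injective _ Prod.swap_injective] at h2
  have h3 : T.card = (T.filter fun P => |P.2| ≤ |P.1|).card +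
      (T.filter fun P => ¬ |P.2| ≤ |P.1|).card :=
    (Finset.card_filter_add_card_filter_not _).symm
  rw [h3]
  push_cast
  linarith

end Pool.Agent.H8.UC
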