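import Mathlib

/-! # [H8 UC NUM4] the choice of `S₁` and `X₀` (V3) -/

namespace Pool.Agent.H8.UC

theorem num4 (n : ℕ) (hn : 4 ≤ n) (S H : ℕ) (hS : 1 ≤ S) (hH : 1 ≤ H) :
    ∃ S₁ X₀ : ℕ, S ≤ S₁ ∧ S₁ ≤ X₀ ∧ H ≤ S₁ ^ (n - 1) ∧
      (X₀ : ℝ) ≤ 4 * (S + (S : ℝ) ^ (2 / 3 : ℝ) * (1 + Real.log S) * (H : ℝ) ^ (1 / (n : ℝ)) +
        (H : ℝ) ^ (2 / (n : ℝ)) * (1 + Real.log H)) ∧
      ((S₁ : ℝ) ^ (2 / 3 : ℝ) * (1 + Real.log S₁) + H / (X₀ : ℝ) ^ (n - 2)) * (H : ℝ) ^ (1 / (n : ℝ)) ≤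
        5 * (S + (S : ℝ) ^ (2 / 3 : ℝ) * (1 + Real.log S) * (H : ℝ) ^ (1 / (n : ℝ)) +
        (H : ℝ) ^ (2 / (n : ℝ)) * (1 + Real.log H)) := by
  have hn4 : (4 : ℝ) ≤ n := by exact_mod_cast hn
  have hn0 : (0 : ℝ) < n := by linarith
  have hn1 : (0 : ℝ) < (n : ℝ) - 1 := by linarith
  have hS1 : (1 : ℝ) ≤ S := by exact_mod_cast hS
  have hH1 : (1 : ℝ) ≤ H := by exact_mod_cast hH
  have hH0 : (0 : ℝ) < H := by linarith
  have hlS : 0 ≤ Real.log S := Real.log_nonneg hS1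
  have hlH : 0 ≤ Real.log H := Real.log_nonneg hH1
  obtain ⟨a, ha⟩ : ∃ a : ℝ, a = (H : ℝ) ^ (1 / ((n : ℝ) - 1)) := ⟨_, rfl⟩
  obtain ⟨b, hb⟩ : ∃ b : ℝ, b = (H : ℝ) ^ (2 / (n : ℝ)) := ⟨_, rfl⟩
  obtain ⟨d, hd⟩ : ∃ d : ℝ, d = (H : ℝ) ^ (1 / (n : ℝ)) := ⟨_, rfl⟩
  have ha1 : 1 ≤ a := by rw [ha]; exact Real.one_le_rpow hH1 (by positivity)
  have hb1 : 1 ≤ b := by rw [hb]; exact Real.one_le_rpow hH1 (by positivity)
  have hd1 : 1 ≤ d := by rw [hd]; exact Real.one_le_rpow hH1 (by positivity)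
  have hab : a ≤ b := by
    rw [ha, hb]
    refine Real.rpow_le_rpow_of_exponent_le hH1 ?_
    rw [div_le_div_iff₀ hn1 hn0]
    linarith
  have hdb : d ≤ b := by
    rw [hd, hb]
    refine Real.rpow_le_rpow_of_exponent_le hH1 ?_
    exact div_le_div_of_nonneg_right (by norm_num) hn0.le
  refine ⟨max S ⌈a⌉₊, max (max S ⌈a⌉₊) ⌈b⌉₊, le_max_left _ _, le_max_left _ _, ?_, ?_, ?_⟩
  · have h1 : a ≤ ((max S ⌈a⌉₊ : ℕ) : ℝ) := (Nat.le_ceil a).trans (by exact_mod_cast le_max_right _ _)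
    have h2 : (H : ℝ) = a ^ (n - 1) := by
      rw [ha, ← Real.rpow_natCast, ← Real.rpow_mul hH0.le]
      have h3 : ((n - 1 : ℕ) : ℝ) = (n : ℝ) - 1 := by
        rw [Nat.cast_sub (by omega)]
        simp
      rw [h3, one_div, inv_mul_cancel₀ hn1.ne', Real.rpow_one]
    have h3 : (H : ℝ) ≤ ((max S ⌈a⌉₊ : ℕ) : ℝ) ^ (n - 1) := by
      rw [h2]
      exact pow_le_pow_left₀ (by linarith) h1 _
    exact_mod_cast h3
  · rw [← hb, ← hd]
    have h1 : (⌈a⌉₊ : ℝ) ≤ 2 * b := by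
      have := (Nat.ceil_lt_add_one (by linarith : 0 ≤ a)).le
      linarith
    have h2 : (⌈b⌉₊ : ℝ) ≤ 2 * b := by
      have := (Nat.ceil_lt_add_one (by linarith : 0 ≤ b)).le
      linarith
    have h3 : 0 ≤ (S : ℝ) ^ (2 / 3 : ℝ) * (1 + Real.log S) * d := by positivity
    have h4 : b ≤ b * (1 + Real.log H) := le_mul_of_one_le_right (by linarith) (by linarith)
    push_cast
    refine max_le (max_le ?_ ?_) ?_
    · linarith
    · linarith
    · linarith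
  · rw [← hb, ← hd]
    have h0 : 0 ≤ (S : ℝ) ^ (2 / 3 : ℝ) * (1 + Real.log S) * d := by positivity
    have h4 : b ≤ b * (1 + Real.log H) := le_mul_of_one_le_right (by linarith) (by linarith)
    have hS0 : (0 : ℝ) ≤ S := by linarith
    -- second part
    have h5 : (H : ℝ) / ((max (max S ⌈a⌉₊) ⌈b⌉₊ : ℕ) : ℝ) ^ (n - 2) ≤ 1 := by
      have hX : b ≤ ((max (max S ⌈a⌉₊) ⌈b⌉₊ : ℕ) : ℝ) := (Nat.le_ceil b).trans (by exact_mod_cast le_max_right _ _)
      rw [div_le_one (by positivity)]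
      refine le_trans ?_ (pow_le_pow_left₀ (by linarith) hX _)
      rw [hb, ← Real.rpow_natCast, ← Real.rpow_mul hH0.le]
      have h6 : ((n - 2 : ℕ) : ℝ) = (n : ℝ) - 2 := by
        rw [Nat.cast_sub (by omega)]
        simp
      rw [h6]
      calc (H : ℝ) = (H : ℝ) ^ (1 : ℝ) := (Real.rpow_one _).symm
        _ ≤ (H : ℝ) ^ (2 / (n : ℝ) * ((n : ℝ) - 2)) := by
          refine Real.rpow_le_rpow_of_exponent_le hH1 ?_
          rw [div_mul_eq_mul_div, le_div_iff₀ hn0]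
          linarith
    -- first part
    have h7 : (((max S ⌈a⌉₊ : ℕ) : ℝ)) ^ (2 / 3 : ℝ) * (1 + Real.log ((max S ⌈a⌉₊ : ℕ) : ℝ)) * d ≤
        (S : ℝ) ^ (2 / 3 : ℝ) * (1 + Real.log S) * d + 4 * (b * (1 + Real.log H)) := by
      rcases le_total ⌈a⌉₊ S with h | h
      · rw [max_eq_left h]
        have : 0 ≤ b * (1 + Real.log H) := by positivity
        linarith
      · rw [max_eq_right h]
        have h8 : (⌈a⌉₊ : ℝ) ≤ 2 * a := by
          have := (Nat.ceil_lt_add_one (by linarith : 0 ≤ a)).le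
          linarith
        have h9 : (1 : ℝ) ≤ (⌈a⌉₊ : ℝ) := ha1.trans (Nat.le_ceil a)
        have h10 : (⌈a⌉₊ : ℝ) ^ (2 / 3 : ℝ) ≤ 2 * a ^ (2 / 3 : ℝ) := by
          calc (⌈a⌉₊ : ℝ) ^ (2 / 3 : ℝ) ≤ (2 * a) ^ (2 / 3 : ℝ) :=
                Real.rpow_le_rpow (by linarith) h8 (by norm_num)
            _ = (2 : ℝ) ^ (2 / 3 : ℝ) * a ^ (2 / 3 : ℝ) := Real.mul_rpow (by norm_num) (by linarith)
            _ ≤ 2 * a ^ (2 / 3 : ℝ) := by
              refine mul_le_mul_of_nonneg_right ?_ (by positivity)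
              calc (2 : ℝ) ^ (2 / 3 : ℝ) ≤ (2 : ℝ) ^ (1 : ℝ) :=
                    Real.rpow_le_rpow_of_exponent_le (by norm_num) (by norm_num)
                _ = 2 := Real.rpow_one _
        have h11 : 1 + Real.log (⌈a⌉₊ : ℝ) ≤ 2 * (1 + Real.log H) := by
          have h12 : Real.log (⌈a⌉₊ : ℝ) ≤ Real.log (2 * a) := Real.log_le_log (by linarith) h8
          have h13 : Real.log (2 * a) = Real.log 2 + 1 / ((n : ℝ) - 1) * Real.log H := by
            rw [Real.log_mul (by norm_num) (by linarith), ha, Real.log_rpow hH0]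
          have h14 : 1 / ((n : ℝ) - 1) * Real.log H ≤ 1 * Real.log H := by
            refine mul_le_mul_of_nonneg_right ?_ hlH
            rw [div_le_one hn1]
            linarith
          have h15 : Real.log 2 ≤ 1 := by
            have := Real.log_two_lt_d9
            linarith
          linarith
        have h16 : a ^ (2 / 3 : ℝ) * d ≤ b := by
          rw [ha, hd, hb, ← Real.rpow_mul hH0.le, ← Real.rpow_add hH0]
          refine Real.rpow_le_rpow_of_exponent_le hH1 ?_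
          rw [div_mul_eq_mul_div, one_mul, div_add_div _ _ hn1.ne' hn0.ne', div_le_div_iff₀ (by positivity) hn0]
          nlinarith
        have h17 : 0 ≤ (⌈a⌉₊ : ℝ) ^ (2 / 3 : ℝ) := by positivity
        have h18 : 0 ≤ 1 + Real.log (⌈a⌉₊ : ℝ) := by
          have := Real.log_nonneg h9
          linarith
        calc (⌈a⌉₊ : ℝ) ^ (2 / 3 : ℝ) * (1 + Real.log (⌈a⌉₊ : ℝ)) * d
            ≤ (2 * a ^ (2 / 3 : ℝ)) * (2 * (1 + Real.log H)) * d := by
              refine mul_le_mul_of_nonneg_right ?_ (by linarith)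
              exact mul_le_mul h10 h11 h18 (by positivity)
          _ = 4 * ((a ^ (2 / 3 : ℝ) * d) * (1 + Real.log H)) := by ring
          _ ≤ 4 * (b * (1 + Real.log H)) := by
              refine mul_le_mul_of_nonneg_left ?_ (by norm_num)
              exact mul_le_mul_of_nonneg_right h16 (by linarith)
          _ ≤ _ := by linarith
    have h19 : (H : ℝ) / ((max (max S ⌈a⌉₊) ⌈b⌉₊ : ℕ) : ℝ) ^ (n - 2) * d ≤ d :=
      mul_le_of_le_one_left (by linarith) h5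
    rw [add_mul]
    linarith

end Pool.Agent.H8.UC
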