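import Pool.Agent.H99.UC.Asm6
import Pool.Agent.H8.UC.Med4
import Pool.Agent.H8.UC.Num4
import Pool.Agent.H99.UC.Sm4

/-! # [H8 UC ASM7] THEOREM V3: `|F(x,y)| ≤ H` has at most `κ (S + S^(2/3) (1 + log S) H^(1/n) + H^(2/n) (1 + log H))` integer solutions -/

namespace Pool.Agent.H8.UC

open MvPolynomial Pool.Agent.H8.AA

/-- the integer points with `|F| ≤ H` in the box `(B S^n)^E` -/
theorem pts4 (n : ℕ) (hn : 4 ≤ n) (f : MvPolynomial (Fin 2) ℤ) (hirr : Irreducible (map (Int.castRingHom ℚ) f))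
    (hf : f.IsHomogeneous n) (B : ℕ) (hB : 2 ≤ B) (hfB : ∀ m, |f.coeff m| ≤ (B : ℤ)) (E : ℕ) : ∃ C : ℝ, 0 ≤ C ∧
    ∀ S H X₀ : ℕ, 1 ≤ S → 1 ≤ H → H ≤ S ^ (n - 1) → S ≤ X₀ → ∀ F : MvPolynomial (Fin 2) ℤ, F.totalDegree ≤ n →
    homogeneousComponent n F = f → (∀ m : Fin 2 →₀ ℕ, m.degree < n → |F.coeff m| ≤ (S : ℤ) ^ (n - m.degree)) →
    ∀ T : Finset (ℤ × ℤ),
    (∀ P ∈ T, |ev n (co (vec n F)) P.1 P.2| ≤ (H : ℤ) ∧ max |P.1| |P.2| ≤ ((B : ℤ) * S ^ n) ^ E) →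
    (T.card : ℝ) ≤ C * (((S : ℝ) ^ (2 / 3 : ℝ) * (1 + Real.log S) + H / (X₀ : ℝ) ^ (n - 2)) * (H : ℝ) ^ (1 / (n : ℝ)) +
      (X₀ + (H : ℝ) ^ (2 / (n : ℝ)) * (1 + Real.log H))) := by
  classical
  have hff : homogeneousComponent n f = f := by
    rw [homogeneousComponent_of_mem hf, if_pos rfl]
  have hirf : Ir n (co (vec n f)) := ir_of (by omega) hff hirr
  obtain ⟨c₀, hc₀, hgd⟩ := gd0 n (by omega) (co (vec n f)) hirf
  obtain ⟨C, K, hC, hK, hmed⟩ := med4 n (by omega) B hB c₀ hc₀ E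
  obtain ⟨C', hC', hsm⟩ := Pool.Agent.H99.UC.sm4 n (by omega) (co (vec n f)) hirf
  refine ⟨C + C' * K, by positivity, ?_⟩
  intro S H X₀ hS hH hHS hSX F hF hFf hFb T hT
  have htop : ∀ j ≤ n, co (vec n F) (n - j) j = co (vec n f) (n - j) j := by
    intro j hj
    rw [top_eq hFf hj, top_eq hff hj]
  obtain ⟨hir, hg1, hg2⟩ := hgd (co (vec n F)) htop
  have hbd : ∀ a b, a + b ≤ n → |co (vec n F) a b| ≤ ((B : ℤ) * (S : ℤ) ^ (n - (a + b)) : ℤ) := by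
    intro a b hab
    rw [co_vec F hab]
    rcases Nat.lt_or_ge (a + b) n with h | h
    · have h1 := hFb (Finsupp.single 0 a + Finsupp.single 1 b) (by rw [deg_ab]; exact h)
      rw [deg_ab] at h1
      refine h1.trans ?_
      have h2 : (0 : ℤ) ≤ (S : ℤ) ^ (n - (a + b)) := by positivity
      have h3 : (1 : ℤ) ≤ (B : ℤ) := by exact_mod_cast (by omega : 1 ≤ B)
      nlinarith
    · have h1 : a + b = n := le_antisymm hab h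
      have h2 : F.coeff (Finsupp.single 0 a + Finsupp.single 1 b) = f.coeff (Finsupp.single 0 a + Finsupp.single 1 b) := by
        rw [← hFf, coeff_homogeneousComponent, if_pos]
        rw [deg_ab]
        exact h1
      rw [h2, h1, Nat.sub_self, pow_zero, mul_one]
      exact hfB _
  have hS1 : (1 : ℝ) ≤ S := by exact_mod_cast hS
  have hH1 : (1 : ℝ) ≤ H := by exact_mod_cast hH
  have hX1 : (1 : ℝ) ≤ X₀ := by exact_mod_cast hS.trans hSX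
  have hKX : 1 ≤ K * X₀ := by nlinarith
  have hlS := Real.log_nonneg hS1
  have hlH := Real.log_nonneg hH1
  set T1 := T.filter fun P => K * X₀ ≤ (max |P.1| |P.2| : ℤ) with hT1
  set T2 := T.filter fun P => ¬ K * X₀ ≤ (max |P.1| |P.2| : ℤ) with hT2
  have h1 : (T1.card : ℝ) ≤ C * ((S : ℝ) ^ (2 / 3 : ℝ) * (1 + Real.log S) + H / (X₀ : ℝ) ^ (n - 2)) *
      (H : ℝ) ^ (1 / (n : ℝ)) := by
    refine hmed (co (vec n F)) S H X₀ hS hH hHS hSX hbd hir hg1 hg2 T1 ?_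
    intro P hP
    rw [hT1, Finset.mem_filter] at hP
    exact ⟨(hT P hP.1).1, hP.2, (hT P hP.1).2⟩
  have h2 : (T2.card : ℝ) ≤ C' * (K * X₀ + (H : ℝ) ^ (2 / (n : ℝ)) * (1 + Real.log H)) := by
    refine hsm (co (vec n F)) htop (K * X₀) H hKX hH1 T2 ?_
    intro P hP
    rw [hT2, Finset.mem_filter] at hP
    refine ⟨by exact_mod_cast (hT P hP.1).1, ?_⟩
    have h3 := hP.2
    push Not at h3
    have h5 : (|P.1| : ℤ) ≤ max |P.1| |P.2| := le_max_left _ _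
    have h6 : ((|P.1| : ℤ) : ℝ) ≤ ((max |P.1| |P.2| : ℤ) : ℝ) := by exact_mod_cast h5
    push_cast at h6 h3
    linarith
  have h3 : T.card = T1.card + T2.card := (Finset.card_filter_add_card_filter_not _).symm
  rw [h3]
  push_cast
  have h7 : 0 ≤ ((S : ℝ) ^ (2 / 3 : ℝ) * (1 + Real.log S) + H / (X₀ : ℝ) ^ (n - 2)) * (H : ℝ) ^ (1 / (n : ℝ)) := by
    positivity
  have h8 : 0 ≤ (H : ℝ) ^ (2 / (n : ℝ)) * (1 + Real.log H) := by positivity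
  obtain ⟨Z, hZ⟩ : ∃ Z : ℝ, Z = (H : ℝ) ^ (2 / (n : ℝ)) * (1 + Real.log H) := ⟨_, rfl⟩
  obtain ⟨V, hV⟩ : ∃ V : ℝ, V = ((S : ℝ) ^ (2 / 3 : ℝ) * (1 + Real.log S) + H / (X₀ : ℝ) ^ (n - 2)) *
    (H : ℝ) ^ (1 / (n : ℝ)) := ⟨_, rfl⟩
  rw [mul_assoc, ← hV] at h1
  rw [← hZ] at h2 h8 ⊢
  rw [← hV] at h7 ⊢
  have h9 : C' * (K * X₀ + Z) ≤ C' * K * (X₀ + Z) := by
    have : C' * Z * 1 ≤ C' * Z * K := mul_le_mul_of_nonneg_left hK (by positivity)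
    linarith
  have h10 : 0 ≤ C' * K * V := by positivity
  have h11 : 0 ≤ C * (X₀ + Z) := by positivity
  linarith

/-- THEOREM V3 -/
theorem main7 (n : ℕ) (hn : 4 ≤ n) (f : MvPolynomial (Fin 2) ℤ) (hf : f.IsHomogeneous n)
    (hirr : Irreducible (map (Int.castRingHom ℚ) f)) : ∃ κ : ℝ, ∀ S H : ℕ, 1 ≤ S → 1 ≤ H →
    ∀ F : MvPolynomial (Fin 2) ℤ, F.totalDegree ≤ n → homogeneousComponent n F = f →
    (∀ m : Fin 2 →₀ ℕ, m.degree < n → |F.coeff m| ≤ (S : ℤ) ^ (n - m.degree)) →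
    {P : Fin 2 → ℤ | |eval P F| ≤ (H : ℤ)}.Finite ∧
    (({P : Fin 2 → ℤ | |eval P F| ≤ (H : ℤ)}.ncard : ℕ) : ℝ) ≤
      κ * (S + (S : ℝ) ^ (2 / 3 : ℝ) * (1 + Real.log S) * (H : ℝ) ^ (1 / (n : ℝ)) +
        (H : ℝ) ^ (2 / (n : ℝ)) * (1 + Real.log H)) := by
  obtain ⟨E, B, hB, hfB, hcount⟩ := Pool.Agent.H99.UC.count6 n hn f hf hirr
  obtain ⟨C₁, hC₁, hpts⟩ := pts4 n hn f hirr hf B hB hfB E
  refine ⟨C₁ * 10, ?_⟩
  intro S H hS hH F hF hFf hFb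
  obtain ⟨S', X₀, hSS', hSX, hHS', h1, h2⟩ := num4 n hn S H hS hH
  have hFb' : ∀ m : Fin 2 →₀ ℕ, m.degree < n → |F.coeff m| ≤ (S' : ℤ) ^ (n - m.degree) := by
    intro m hm
    refine (hFb m hm).trans ?_
    exact_mod_cast Nat.pow_le_pow_left hSS' _
  obtain ⟨T, hT, hfin, hP⟩ := hcount S' H (hS.trans hSS') hHS' F hF hFf hFb'
  have hTc := hpts S' H X₀ (hS.trans hSS') hH hHS' hSX F hF hFf hFb' T hT
  have hS1 : (1 : ℝ) ≤ S := by exact_mod_cast hS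
  have hH1 : (1 : ℝ) ≤ H := by exact_mod_cast hH
  have hlS := Real.log_nonneg hS1
  have hlH := Real.log_nonneg hH1
  obtain ⟨Y, hY⟩ : ∃ Y : ℝ, Y = S + (S : ℝ) ^ (2 / 3 : ℝ) * (1 + Real.log S) * (H : ℝ) ^ (1 / (n : ℝ)) +
    (H : ℝ) ^ (2 / (n : ℝ)) * (1 + Real.log H) := ⟨_, rfl⟩
  have h3 : (H : ℝ) ^ (2 / (n : ℝ)) * (1 + Real.log H) ≤ Y := by
    rw [hY]
    have : 0 ≤ (S : ℝ) + (S : ℝ) ^ (2 / 3 : ℝ) * (1 + Real.log S) * (H : ℝ) ^ (1 / (n : ℝ)) := by positivity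
    linarith
  rw [← hY] at h1 h2 ⊢
  have h5 : (T.card : ℝ) ≤ C₁ * 10 * Y := by
    refine hTc.trans ?_
    calc _ ≤ C₁ * (10 * Y) := mul_le_mul_of_nonneg_left (by linarith) hC₁
      _ = _ := by ring
  refine ⟨hfin, le_trans ?_ h5⟩
  exact_mod_cast hP

end Pool.Agent.H8.UC
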