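import Pool.Agent.H99.UC.Asm6
import Pool.Agent.H99.UC.Med5
import Pool.Agent.H99.UC.Sm4

/-! # [H8 UC ASM8] THEOREM V4: `|F(x,y)| ≤ H` has at most `κ (S + H^(2/n) (1 + log H))` integer solutions -/

namespace Pool.Agent.H8.UC

open MvPolynomial Pool.Agent.H8.AA

/-- the choice of `S'` -/
theorem num8 (n : ℕ) (hn : 4 ≤ n) (S H : ℕ) (hS : 1 ≤ S) (hH : 1 ≤ H) :
    ∃ S' : ℕ, S ≤ S' ∧ H ^ 2 ≤ S' ^ n ∧ H ≤ S' ^ (n - 1) ∧ (S' : ℝ) ≤ S + 2 * (H : ℝ) ^ (2 / (n : ℝ)) := by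
  have hn0 : (0 : ℝ) < n := by
    have : 0 < n := by omega
    exact_mod_cast this
  have hH1 : (1 : ℝ) ≤ H := by exact_mod_cast hH
  have hH0 : (0 : ℝ) ≤ H := by linarith
  obtain ⟨b, hb⟩ : ∃ b : ℝ, b = (H : ℝ) ^ (2 / (n : ℝ)) := ⟨_, rfl⟩
  have hb1 : 1 ≤ b := by rw [hb]; exact Real.one_le_rpow hH1 (by positivity)
  have hbn : b ^ n = (H : ℝ) ^ 2 := by
    rw [hb, ← Real.rpow_natCast, ← Real.rpow_mul hH0, div_mul_cancel₀ _ hn0.ne']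
    norm_num
  have h1 : b ≤ ((max S ⌈b⌉₊ : ℕ) : ℝ) := (Nat.le_ceil b).trans (by exact_mod_cast le_max_right _ _)
  have h2 : H ^ 2 ≤ (max S ⌈b⌉₊) ^ n := by
    have h3 : (H : ℝ) ^ 2 ≤ ((max S ⌈b⌉₊ : ℕ) : ℝ) ^ n := by
      rw [← hbn]
      exact pow_le_pow_left₀ (by linarith) h1 _
    exact_mod_cast h3
  have hS1 : 1 ≤ max S ⌈b⌉₊ := hS.trans (le_max_left _ _)
  refine ⟨max S ⌈b⌉₊, le_max_left _ _, h2, ?_, ?_⟩
  · have h4 : (max S ⌈b⌉₊) ^ n ≤ ((max S ⌈b⌉₊) ^ (n - 1)) ^ 2 := by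
      rw [← pow_mul]
      exact Nat.pow_le_pow_right hS1 (by omega)
    exact (Nat.pow_le_pow_iff_left (by norm_num : (2 : ℕ) ≠ 0)).1 (h2.trans h4)
  · rw [← hb]
    have h5 : (⌈b⌉₊ : ℝ) ≤ 2 * b := by
      have := (Nat.ceil_lt_add_one (by linarith : 0 ≤ b)).le
      linarith
    have hS0 : (0 : ℝ) ≤ S := Nat.cast_nonneg S
    push_cast
    refine max_le ?_ ?_ <;> linarith

/-- the integer points with `|F| ≤ H` in the box `(B S^n)^E` -/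
theorem pts8 (n : ℕ) (hn : 4 ≤ n) (f : MvPolynomial (Fin 2) ℤ) (hirr : Irreducible (map (Int.castRingHom ℚ) f))
    (hf : f.IsHomogeneous n) (B : ℕ) (hB : 2 ≤ B) (hfB : ∀ m, |f.coeff m| ≤ (B : ℤ)) (E : ℕ) : ∃ C : ℝ, 0 ≤ C ∧
    ∀ S H : ℕ, 1 ≤ S → 1 ≤ H → H ^ 2 ≤ S ^ n → ∀ F : MvPolynomial (Fin 2) ℤ, F.totalDegree ≤ n →
    homogeneousComponent n F = f → (∀ m : Fin 2 →₀ ℕ, m.degree < n → |F.coeff m| ≤ (S : ℤ) ^ (n - m.degree)) →
    ∀ T : Finset (ℤ × ℤ),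
    (∀ P ∈ T, |ev n (co (vec n F)) P.1 P.2| ≤ (H : ℤ) ∧ max |P.1| |P.2| ≤ ((B : ℤ) * S ^ n) ^ E) →
    (T.card : ℝ) ≤ C * (S + (H : ℝ) ^ (2 / (n : ℝ)) * (1 + Real.log H)) := by
  classical
  have hff : homogeneousComponent n f = f := by
    rw [homogeneousComponent_of_mem hf, if_pos rfl]
  have hirf : Ir n (co (vec n f)) := ir_of (by omega) hff hirr
  obtain ⟨C, K, hC, hK, hmed⟩ := Pool.Agent.H99.UC.med5 n hn (co (vec n f)) hirf B hB E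
  obtain ⟨C', hC', hsm⟩ := Pool.Agent.H99.UC.sm4 n (by omega) (co (vec n f)) hirf
  refine ⟨C + C' * K, by positivity, ?_⟩
  intro S H hS hH hHS F hF hFf hFb T hT
  have htop : ∀ j ≤ n, co (vec n F) (n - j) j = co (vec n f) (n - j) j := by
    intro j hj
    rw [top_eq hFf hj, top_eq hff hj]
  have hbd : ∀ a b, a + b ≤ n → |co (vec n F) a b| ≤ ((B : ℤ) * (S : ℤ) ^ (n - (a + b)) : ℤ) := by
    intro a b hab
    rw [co_vec F hab]
    rcases Nat.lt_or_ge (a + b) n with h | h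
    · have h1 := hFb (Finsupp.single 0 a + Finsupp.single 1 b) (by rw [deg_ab]; exact h)
      rw [deg_ab] at h1
      refine h1.trans ?_
      have h2 : (0 : ℤ) ≤ (S : ℤ) ^ (n - (a + b)) := by positivity
      have h3 : (1 : ℤ) ≤ (B : ℤ) := by exact_mod_cast (by omega : 1 ≤ B)
      nlinarith
    · have h1 : a + b = n := le_antisymm hab h
      have h2 : F.coeff (Finsupp.single 0 a + Finsupp.single 1 b) = f.coeff (Finsupp.single 0 a + Finsupp.single 1 b) := by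
        rw [← hFf, coeff_homogeneousComponent, if_pos]
        rw [deg_ab]
        exact h1
      rw [h2, h1, Nat.sub_self, pow_zero, mul_one]
      exact hfB _
  have hS1 : (1 : ℝ) ≤ S := by exact_mod_cast hS
  have hH1 : (1 : ℝ) ≤ H := by exact_mod_cast hH
  have hKS : 1 ≤ K * S := by nlinarith
  have hlH := Real.log_nonneg hH1
  set T1 := T.filter fun P => K * S ≤ (max |P.1| |P.2| : ℤ) with hT1
  set T2 := T.filter fun P => ¬ K * S ≤ (max |P.1| |P.2| : ℤ) with hT2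
  have h1 : (T1.card : ℝ) ≤ C * S := by
    refine hmed (co (vec n F)) htop S H hS hH hHS hbd T1 ?_
    intro P hP
    rw [hT1, Finset.mem_filter] at hP
    exact ⟨(hT P hP.1).1, hP.2, (hT P hP.1).2⟩
  have h2 : (T2.card : ℝ) ≤ C' * (K * S + (H : ℝ) ^ (2 / (n : ℝ)) * (1 + Real.log H)) := by
    refine hsm (co (vec n F)) htop (K * S) H hKS hH1 T2 ?_
    intro P hP
    rw [hT2, Finset.mem_filter] at hP
    refine ⟨by exact_mod_cast (hT P hP.1).1, ?_⟩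
    have h3 := hP.2
    push Not at h3
    have h5 : (|P.1| : ℤ) ≤ max |P.1| |P.2| := le_max_left _ _
    have h6 : ((|P.1| : ℤ) : ℝ) ≤ ((max |P.1| |P.2| : ℤ) : ℝ) := by exact_mod_cast h5
    push_cast at h6 h3
    linarith
  have h3 : T.card = T1.card + T2.card := (Finset.card_filter_add_card_filter_not _).symm
  rw [h3]
  push_cast
  obtain ⟨Z, hZ⟩ : ∃ Z : ℝ, Z = (H : ℝ) ^ (2 / (n : ℝ)) * (1 + Real.log H) := ⟨_, rfl⟩
  have h8 : 0 ≤ Z := by rw [hZ]; positivity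
  rw [← hZ] at h2 ⊢
  have h9 : C' * (K * S + Z) ≤ C' * K * (S + Z) := by
    have : C' * Z * 1 ≤ C' * Z * K := mul_le_mul_of_nonneg_left hK (by positivity)
    linarith
  have h11 : 0 ≤ C * Z := by positivity
  linarith

/-- THEOREM V4 -/
theorem main8 (n : ℕ) (hn : 4 ≤ n) (f : MvPolynomial (Fin 2) ℤ) (hf : f.IsHomogeneous n)
    (hirr : Irreducible (map (Int.castRingHom ℚ) f)) : ∃ κ : ℝ, ∀ S H : ℕ, 1 ≤ S → 1 ≤ H →
    ∀ F : MvPolynomial (Fin 2) ℤ, F.totalDegree ≤ n → homogeneousComponent n F = f →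
    (∀ m : Fin 2 →₀ ℕ, m.degree < n → |F.coeff m| ≤ (S : ℤ) ^ (n - m.degree)) →
    {P : Fin 2 → ℤ | |eval P F| ≤ (H : ℤ)}.Finite ∧
    (({P : Fin 2 → ℤ | |eval P F| ≤ (H : ℤ)}.ncard : ℕ) : ℝ) ≤
      κ * (S + (H : ℝ) ^ (2 / (n : ℝ)) * (1 + Real.log H)) := by
  obtain ⟨E, B, hB, hfB, hcount⟩ := Pool.Agent.H99.UC.count6 n hn f hf hirr
  obtain ⟨C₁, hC₁, hpts⟩ := pts8 n hn f hirr hf B hB hfB E
  refine ⟨C₁ * 3, ?_⟩
  intro S H hS hH F hF hFf hFb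
  obtain ⟨S', hSS', hHS2, hHS', h1⟩ := num8 n hn S H hS hH
  have hFb' : ∀ m : Fin 2 →₀ ℕ, m.degree < n → |F.coeff m| ≤ (S' : ℤ) ^ (n - m.degree) := by
    intro m hm
    refine (hFb m hm).trans ?_
    exact_mod_cast Nat.pow_le_pow_left hSS' _
  obtain ⟨T, hT, hfin, hP⟩ := hcount S' H (hS.trans hSS') hHS' F hF hFf hFb'
  have hTc := hpts S' H (hS.trans hSS') hH hHS2 F hF hFf hFb' T hT
  have hH1 : (1 : ℝ) ≤ H := by exact_mod_cast hH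
  have hlH := Real.log_nonneg hH1
  have hS0 : (0 : ℝ) ≤ S := Nat.cast_nonneg S
  obtain ⟨b, hb⟩ : ∃ b : ℝ, b = (H : ℝ) ^ (2 / (n : ℝ)) := ⟨_, rfl⟩
  have hb1 : 1 ≤ b := by rw [hb]; exact Real.one_le_rpow hH1 (by positivity)
  rw [← hb] at h1 hTc ⊢
  have h4 : b ≤ b * (1 + Real.log H) := le_mul_of_one_le_right (by linarith) (by linarith)
  have h5 : (T.card : ℝ) ≤ C₁ * 3 * (S + b * (1 + Real.log H)) := by
    refine hTc.trans ?_
    calc _ ≤ C₁ * (3 * (S + b * (1 + Real.log H))) := mul_le_mul_of_nonneg_left (by linarith) hC₁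
      _ = _ := by ring
  refine ⟨hfin, le_trans ?_ h5⟩
  exact_mod_cast hP

end Pool.Agent.H8.UC
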