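import Pool.Agent.H8.UC.Gd0
import Pool.Agent.H8.AA.Lrg
import Pool.Agent.H8.AA.Sng

/-! # [H8 UC CNT] the counts for one `F` are bounded by the number of integer points with `|F| ≤ H` in a box `(B S^n)^E` -/

namespace Pool.Agent.H8.UC

open MvPolynomial Pool.Agent.H8.AA

/-- the vector of a polynomial -/
noncomputable def vec (n : ℕ) (F : MvPolynomial (Fin 2) ℤ) : Ix n → ℤ :=
  fun p => F.coeff (Finsupp.single 0 p.1.1.val + Finsupp.single 1 p.1.2.val)

theorem pol_vec {n : ℕ} {F : MvPolynomial (Fin 2) ℤ} (hF : F.totalDegree ≤ n) : pol (vec n F) = F :=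
  Pool.Agent.H85.AA.pol_surj F hF

theorem co_vec {n : ℕ} (F : MvPolynomial (Fin 2) ℤ) {a b : ℕ} (h : a + b ≤ n) :
    co (vec n F) a b = F.coeff (Finsupp.single 0 a + Finsupp.single 1 b) := by
  rw [co_of_le _ h]
  rfl

theorem deg_ab (a b : ℕ) : (Finsupp.single (0 : Fin 2) a + Finsupp.single 1 b : Fin 2 →₀ ℕ).degree = a + b := by
  rw [map_add, Finsupp.degree_single, Finsupp.degree_single]

theorem top_eq {n : ℕ} {F f : MvPolynomial (Fin 2) ℤ} (h : homogeneousComponent n F = f) {j : ℕ} (hj : j ≤ n) :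
    co (vec n F) (n - j) j = f.coeff (Finsupp.single 0 (n - j) + Finsupp.single 1 j) := by
  rw [co_vec F (by omega), ← h, coeff_homogeneousComponent, if_pos]
  rw [deg_ab]
  omega

theorem ir_of {n : ℕ} (hn : 2 ≤ n) {F f : MvPolynomial (Fin 2) ℤ} (h : homogeneousComponent n F = f)
    (hirr : Irreducible (map (Int.castRingHom ℚ) f)) : Ir n (co (vec n F)) := by
  have hh : homogeneousComponent n (map (Int.castRingHom ℚ) F) = map (Int.castRingHom ℚ) f := by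
    rw [← h]
    ext m
    rw [coeff_homogeneousComponent, coeff_map, coeff_map, coeff_homogeneousComponent]
    split_ifs
    · rfl
    · rw [map_zero]
  obtain ⟨h1, h2⟩ := H12.ON.deh hn (F := map (Int.castRingHom ℚ) F) (by rw [hh]; exact hirr)
  have h3 : H12.ON.ftop n (map (Int.castRingHom ℚ) F) = (fm (co (vec n F)) n).map (Int.castRingHom ℚ) := by
    unfold H12.ON.ftop fm
    rw [Polynomial.map_sum]
    refine Finset.sum_congr rfl fun j hj => ?_
    have hj' : j ≤ n := by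
      have := Finset.mem_range.1 hj
      omega
    rw [Polynomial.map_monomial, coeff_map, co_vec F (by omega)]
  rw [h3] at h1 h2
  refine ⟨fun h0 => ?_, h2⟩
  have h4 : ((fm (co (vec n F)) n).map (Int.castRingHom ℚ)).coeff n = 0 := by
    rw [Polynomial.coeff_map, fm_coeff, if_pos le_rfl, Nat.sub_self, h0, map_zero]
  have h5 : ((fm (co (vec n F)) n).map (Int.castRingHom ℚ)).leadingCoeff = 0 := by
    rw [Polynomial.leadingCoeff, h1]
    exact h4
  exact h2.ne_zero (Polynomial.leadingCoeff_eq_zero.1 h5)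

/-- all `F` at once: the constants `c` and the pairs `(c,P)` -/
theorem count (n : ℕ) (hn : 4 ≤ n) (f : MvPolynomial (Fin 2) ℤ) (hirr : Irreducible (map (Int.castRingHom ℚ) f)) :
    ∃ E B : ℕ, 2 ≤ B ∧ (∀ m, |f.coeff m| ≤ (B : ℤ)) ∧ ∀ S H : ℕ, 1 ≤ S → H ≤ S ^ (n - 1) →
    ∀ F : MvPolynomial (Fin 2) ℤ, F.totalDegree ≤ n → homogeneousComponent n F = f →
    (∀ m : Fin 2 →₀ ℕ, m.degree < n → |F.coeff m| ≤ (S : ℤ) ^ (n - m.degree)) →
    (∀ w : Fin 2 → ℚ, map (Int.castRingHom ℚ) (homogeneousComponent (n - 1) F) ≠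
      ∑ i, C (w i) * pderiv i (map (Int.castRingHom ℚ) f)) →
    ∃ T : Finset (ℤ × ℤ), (∀ P ∈ T, |ev n (co (vec n F)) P.1 P.2| ≤ (H : ℤ) ∧ max |P.1| |P.2| ≤ ((B : ℤ) * S ^ n) ^ E) ∧
    {c : ℤ | |c| ≤ (H : ℤ) ∧ ∃ P : Fin 2 → ℤ, eval P (F + C c) = 0}.ncard ≤ n + T.card + (2 * n) ^ 2 ∧
    {p : ℤ × (Fin 2 → ℤ) | |p.1| ≤ (H : ℤ) ∧ H12.ON.Smooth (F + C p.1) ∧ eval p.2 (F + C p.1) = 0}.Finite ∧
    {p : ℤ × (Fin 2 → ℤ) | |p.1| ≤ (H : ℤ) ∧ H12.ON.Smooth (F + C p.1) ∧ eval p.2 (F + C p.1) = 0}.ncard ≤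
      n + T.card := by
  classical
  obtain ⟨E, hE⟩ := H12.ON.family n hn
  obtain ⟨B, hB, hfB⟩ : ∃ B : ℕ, 2 ≤ B ∧ ∀ m, |f.coeff m| ≤ (B : ℤ) := by
    refine ⟨(f.support.sup fun m => (f.coeff m).natAbs) + 2, by omega, fun m => ?_⟩
    rw [Int.abs_eq_natAbs]
    by_cases hm : m ∈ f.support
    · have := Finset.le_sup (f := fun m => (f.coeff m).natAbs) hm
      exact_mod_cast this.trans (Nat.le_add_right _ _)
    · rw [MvPolynomial.notMem_support_iff.1 hm, Int.natAbs_zero]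
      positivity
  refine ⟨E, B, hB, hfB, ?_⟩
  intro S H hS hHS F hF hFf hFb hgen
  obtain ⟨h, hh⟩ : ∃ h : ℕ, h = B * S ^ n := ⟨_, rfl⟩
  have hh2 : 2 ≤ h := by
    rw [hh]
    have : 1 ≤ S ^ n := Nat.one_le_pow _ _ hS
    nlinarith
  -- heights
  have hht : ∀ c : ℤ, |c| ≤ (H : ℤ) → ∀ m, |(F + C c).coeff m| ≤ (h : ℤ) := by
    intro c hc m
    have hSn : (1 : ℤ) ≤ (S : ℤ) ^ n := by exact_mod_cast Nat.one_le_pow n S hS
    have hB2 : (2 : ℤ) ≤ (B : ℤ) := by exact_mod_cast hB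
    have hhz : (h : ℤ) = (B : ℤ) * (S : ℤ) ^ n := by rw [hh]; push_cast; rfl
    have hHn : (H : ℤ) ≤ (S : ℤ) ^ n := by
      have h1 : S ^ (n - 1) ≤ S ^ n := Nat.pow_le_pow_right hS (by omega)
      exact_mod_cast hHS.trans h1
    have hSd : ∀ d, (S : ℤ) ^ (n - d) ≤ (S : ℤ) ^ n := by
      intro d
      exact_mod_cast Nat.pow_le_pow_right hS (by omega)
    rw [coeff_add, coeff_C]
    rcases lt_trichotomy m.degree n with h1 | h1 | h1
    · have h2 := (hFb m h1).trans (hSd _)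
      split_ifs with h3
      · calc |F.coeff m + c| ≤ |F.coeff m| + |c| := abs_add_le _ _
          _ ≤ (S : ℤ) ^ n + (S : ℤ) ^ n := add_le_add h2 (hc.trans hHn)
          _ ≤ h := by rw [hhz]; nlinarith
      · rw [add_zero]
        refine h2.trans ?_
        rw [hhz]
        nlinarith
    · have h2 : F.coeff m = f.coeff m := by
        rw [← hFf, coeff_homogeneousComponent, if_pos h1]
      rw [if_neg, add_zero, h2]
      · refine (hfB m).trans ?_
        rw [hhz]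
        nlinarith
      · rintro rfl
        simp at h1
        omega
    · have h2 : F.coeff m = 0 := by
        by_contra h3
        have h4 := le_totalDegree (MvPolynomial.mem_support_iff.2 h3)
        have h5 : (m.sum fun _ e => e) = m.degree := rfl
        omega
      rw [if_neg, add_zero, h2, abs_zero]
      · positivity
      · rintro rfl
        simp at h1
  set Pp : Set (ℤ × (Fin 2 → ℤ)) := {p | |p.1| ≤ (H : ℤ) ∧ H12.ON.Smooth (F + C p.1) ∧ eval p.2 (F + C p.1) = 0} with hPp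
  -- the large points
  have hbig : {p ∈ Pp | ∃ i, (h : ℤ) ^ E < |p.2 i|}.encard ≤ n := by
    have h1 := hE F hF (by rw [hFf]; exact hirr) (fun w => by rw [hFf]; exact hgen w)
    refine le_trans ?_ h1
    refine Set.encard_le_encard_of_injOn (f := fun p : ℤ × (Fin 2 → ℤ) => (F + C p.1, p.2)) ?_ ?_
    · rintro ⟨c, P⟩ ⟨⟨h2, h3, h4⟩, h5⟩
      refine ⟨?_, h3, h4, h, hh2, hht c h2, h5⟩
      have h6 : (F + C c) - F = C c := by ring
      simp only [h6, totalDegree_C]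
      omega
    · rintro ⟨c, P⟩ _ ⟨c', P'⟩ _ h2
      simp only [Prod.mk.injEq, add_right_inj, C_inj] at h2
      exact Prod.ext h2.1 h2.2
  -- the other points
  obtain ⟨T, hTd⟩ : ∃ T : Finset (ℤ × ℤ), T = ((Finset.Icc (-((h : ℤ) ^ E)) ((h : ℤ) ^ E)) ×ˢ
      (Finset.Icc (-((h : ℤ) ^ E)) ((h : ℤ) ^ E))).filter fun P => |ev n (co (vec n F)) P.1 P.2| ≤ (H : ℤ) := ⟨_, rfl⟩
  have hT : ∀ P ∈ T, |ev n (co (vec n F)) P.1 P.2| ≤ (H : ℤ) ∧ max |P.1| |P.2| ≤ ((B : ℤ) * S ^ n) ^ E := by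
    intro P hP
    rw [hTd, Finset.mem_filter, Finset.mem_product, Finset.mem_Icc, Finset.mem_Icc] at hP
    refine ⟨hP.2, ?_⟩
    have hhz : ((B : ℤ) * (S : ℤ) ^ n) = (h : ℤ) := by rw [hh]; push_cast; rfl
    rw [hhz]
    exact max_le (abs_le.2 hP.1.1) (abs_le.2 hP.1.2)
  have hevF : ∀ P : Fin 2 → ℤ, ev n (co (vec n F)) (P 0) (P 1) = eval P F := by
    intro P
    rw [← pol_eval, pol_vec hF]
  have hsmall : {p ∈ Pp | ¬ ∃ i, (h : ℤ) ^ E < |p.2 i|}.encard ≤ (T.card : ℕ) := by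
    rw [← Set.encard_coe_eq_coe_finsetCard]
    refine Set.encard_le_encard_of_injOn (f := fun p : ℤ × (Fin 2 → ℤ) => (p.2 0, p.2 1)) ?_ ?_
    · rintro ⟨c, P⟩ ⟨⟨h2, h3, h4⟩, h5⟩
      push Not at h5
      rw [hTd]
      simp only [Finset.coe_filter, Finset.mem_product, Finset.mem_Icc, Set.mem_ofPred_eq]
      refine ⟨⟨abs_le.1 (h5 0), abs_le.1 (h5 1)⟩, ?_⟩
      rw [hevF]
      have h6 : eval P F = -c := by
        have h7 : eval P F + c = 0 := by simpa using h4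
        linarith
      rw [h6, abs_neg]
      exact h2
    · rintro ⟨c, P⟩ ⟨⟨_, _, h4⟩, _⟩ ⟨c', P'⟩ ⟨⟨_, _, h4'⟩, _⟩ h2
      simp only [Prod.mk.injEq] at h2
      have hPP : P = P' := by
        funext i
        fin_cases i
        · exact h2.1
        · exact h2.2
      subst hPP
      have h7 : eval P F + c = 0 := by simpa using h4
      have h8 : eval P F + c' = 0 := by simpa using h4'
      have h9 : c = c' := by linarith
      rw [h9]
  have hPe : Pp.encard ≤ ((n + T.card : ℕ) : ℕ∞) := by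
    have h1 : Pp ⊆ {p ∈ Pp | ∃ i, (h : ℤ) ^ E < |p.2 i|} ∪ {p ∈ Pp | ¬ ∃ i, (h : ℤ) ^ E < |p.2 i|} := by
      intro p hp
      by_cases h2 : ∃ i, (h : ℤ) ^ E < |p.2 i|
      · exact Or.inl ⟨hp, h2⟩
      · exact Or.inr ⟨hp, h2⟩
    refine (Set.encard_le_encard h1).trans ((Set.encard_union_le _ _).trans ?_)
    push_cast
    exact add_le_add hbig hsmall
  have hPfin : Pp.Finite := Set.finite_of_encard_le_coe hPe
  have hPn : Pp.ncard ≤ n + T.card := by
    have h1 := hPfin.cast_ncard_eq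
    rw [← h1] at hPe
    exact_mod_cast hPe
  -- the constants
  set Z : Set ℤ := {c : ℤ | |c| ≤ (H : ℤ) ∧ ∃ P : Fin 2 → ℤ, eval P (F + C c) = 0} with hZ
  set Sg : Set ℤ := {τ : ℤ | ∃ a b : ℂ, aeval ![a, b] (F + C τ) = 0 ∧ aeval ![a, b] (pderiv 0 F) = 0 ∧
          aeval ![a, b] (pderiv 1 F) = 0} with hSg
  have hSge : Sg.encard ≤ ((2 * n) ^ 2 : ℕ) := H2.AA.sng (by omega) F hF (by rw [hFf]; exact hirr)
  have hSgf : Sg.Finite := Set.finite_of_encard_le_coe hSge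
  have hSgn : Sg.ncard ≤ (2 * n) ^ 2 := by
    have h1 := hSgf.cast_ncard_eq
    rw [← h1] at hSge
    exact_mod_cast hSge
  have hZsub : Z ⊆ (Prod.fst '' Pp) ∪ Sg := by
    rintro c ⟨h1, P, h2⟩
    by_cases h3 : H12.ON.Smooth (F + C c)
    · exact Or.inl ⟨(c, P), ⟨h1, h3, h2⟩, rfl⟩
    · right
      unfold H12.ON.Smooth at h3
      push Not at h3
      obtain ⟨a, b, k1, k2, k3⟩ := h3
      rw [map_add, pderiv_C, add_zero] at k2 k3
      exact ⟨a, b, k1, k2, k3⟩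
  have hZn : Z.ncard ≤ n + T.card + (2 * n) ^ 2 := by
    calc Z.ncard ≤ ((Prod.fst '' Pp) ∪ Sg).ncard := Set.ncard_le_ncard hZsub ((hPfin.image _).union hSgf)
      _ ≤ (Prod.fst '' Pp).ncard + Sg.ncard := Set.ncard_union_le _ _
      _ ≤ Pp.ncard + Sg.ncard := Nat.add_le_add_right (Set.ncard_image_le hPfin) _
      _ ≤ _ := Nat.add_le_add hPn hSgn
  exact ⟨T, hT, hZn, hPfin, hPn⟩

end Pool.Agent.H8.UC
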