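import Pool.Agent.H8.AA.Med

/-! # [H8 UC GD0] `f(1,t)` and `f_t(1,t)` are not both small, with a constant that depends on the leading form only

`fm e n` depends on the `e (n-j) j` only (`fm`), so it is that of `e₀`. Over `ℚ` it is irreducible, so it and its derivative (nonzero, of smaller degree) are
coprime: no common real zero (`IsCoprime.map`, evaluate `a p + b p' = 1`). The continuous function `max |p(t)| |p'(t)|` has a positive minimum on
`[-1,1]` (`IsCompact.exists_isMinOn`). The same for `sw` (`Ir n (sw e₀)`: `ir_sw`). Take half the smaller minimum. -/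

namespace Pool.Agent.H8.UC

open Polynomial Pool.Agent.H8.AA

private theorem fm_congr (n : ℕ) (e e₀ : ℕ → ℕ → ℤ) (h : ∀ j ≤ n, e (n - j) j = e₀ (n - j) j) : fm e n = fm e₀ n := by
  unfold fm
  refine Finset.sum_congr rfl fun j hj => ?_
  rw [h j (by have := Finset.mem_range.1 hj; omega)]

/-- the minimum of the larger of `|p(t)|`, `|p'(t)|` -/
private theorem sep_min (p : ℤ[X]) (hp : Irreducible (p.map (Int.castRingHom ℚ))) : ∃ c : ℝ, 0 < c ∧ ∀ t : ℝ, |t| ≤ 1 →
    c < |aeval t p| ∨ c < |aeval t (derivative p)| := by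
  have hs : (p.map (Int.castRingHom ℚ)).Separable := hp.separable
  obtain ⟨a, b, hab⟩ := hs
  have e1 : ∀ (t : ℝ) (r : ℤ[X]), aeval t (r.map (Int.castRingHom ℚ)) = aeval t r := by
    intro t r
    exact aeval_map_algebraMap ℚ t r
  have hne : ∀ t : ℝ, 0 < max |aeval t p| |aeval t (derivative p)| := by
    intro t
    rw [lt_max_iff]
    by_contra hcon
    push Not at hcon
    have h1 : aeval t p = 0 := abs_nonpos_iff.1 hcon.1
    have h2 : aeval t (derivative p) = 0 := abs_nonpos_iff.1 hcon.2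
    have h3 := congrArg (aeval t) hab
    rw [map_add, map_mul, map_mul, map_one, derivative_map, e1, e1, h1, h2, mul_zero, mul_zero, add_zero] at h3
    exact zero_ne_one h3
  have hcont : Continuous (fun t : ℝ => max |aeval t p| |aeval t (derivative p)|) :=
    (p.continuous_aeval.abs).max ((derivative p).continuous_aeval.abs)
  obtain ⟨t₀, ht₀, hmin⟩ := (isCompact_Icc (a := (-1 : ℝ)) (b := 1)).exists_isMinOn
    ⟨0, by norm_num, by norm_num⟩ hcont.continuousOn
  refine ⟨max |aeval t₀ p| |aeval t₀ (derivative p)| / 2, half_pos (hne t₀), ?_⟩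
  intro t ht
  have h1 : max |aeval t₀ p| |aeval t₀ (derivative p)| ≤ max |aeval t p| |aeval t (derivative p)| :=
    hmin (Set.mem_Icc.2 (abs_le.1 ht))
  rw [← lt_max_iff]
  exact lt_of_lt_of_le (half_lt_self (hne t₀)) h1

theorem gd0 (n : ℕ) (hn : 2 ≤ n) (e₀ : ℕ → ℕ → ℤ) (h : Ir n e₀) : ∃ c₀ : ℝ, 0 < c₀ ∧ ∀ e : ℕ → ℕ → ℤ,
    (∀ j ≤ n, e (n - j) j = e₀ (n - j) j) → Ir n e ∧ Gd n c₀ e ∧ Gd n c₀ (sw e) := by
  obtain ⟨c₁, hc₁, h1⟩ := sep_min (fm e₀ n) h.2
  obtain ⟨c₂, hc₂, h2⟩ := sep_min (fm (sw e₀) n) (ir_sw n hn e₀ h).2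
  refine ⟨min c₁ c₂, lt_min hc₁ hc₂, ?_⟩
  intro e he
  have hf : fm e n = fm e₀ n := fm_congr n e e₀ he
  have hs : fm (sw e) n = fm (sw e₀) n := by
    refine fm_congr n (sw e) (sw e₀) fun j hj => ?_
    show e j (n - j) = e₀ j (n - j)
    have h3 := he (n - j) (Nat.sub_le n j)
    rwa [Nat.sub_sub_self hj] at h3
  refine ⟨⟨?_, ?_⟩, ?_, ?_⟩
  · have h3 := he n le_rfl
    rw [Nat.sub_self] at h3
    rw [h3]
    exact h.1
  · rw [hf]
    exact h.2
  · intro t ht
    rw [hf]
    rcases h1 t ht with h3 | h3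
    · exact Or.inl ((min_le_left _ _).trans_lt h3)
    · exact Or.inr ((min_le_left _ _).trans_lt h3)
  · intro t ht
    rw [hs]
    rcases h2 t ht with h3 | h3
    · exact Or.inl ((min_le_right _ _).trans_lt h3)
    · exact Or.inr ((min_le_right _ _).trans_lt h3)

end Pool.Agent.H8.UC
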